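import Mathlib

set_option autoImplicit false

namespace Pool.Agent.Helper19.Caustic

open scoped ContDiff

/-- Points and vectors of the Euclidean plane, in Cartesian coordinates. -/
abbrev Plane := ℝ × ℝ

/-- The Euclidean inner product. -/
def dot (v w : Plane) : ℝ := v.1 * w.1 + v.2 * w.2

/-- An ellipse (circles included): the curve `p x² + 2 q x y + r y² = 1`, where `(x, y)` are the
coordinates relative to the centre and the quadratic form is positive definite. Every ellipse of
the plane is of this form. -/
structure Ellipse where
  centre : Plane
  p : ℝ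
  q : ℝ
  r : ℝ
  hp : 0 < p
  hdet : 0 < p * r - q ^ 2

namespace Ellipse

variable (γ : Ellipse)

/-- The quadratic function with `γ = {F = 1}`. -/
def F (X : Plane) : ℝ :=
  γ.p * (X.1 - γ.centre.1) ^ 2 + 2 * γ.q * (X.1 - γ.centre.1) * (X.2 - γ.centre.2) +
    γ.r * (X.2 - γ.centre.2) ^ 2

/-- The open region bounded by the ellipse. -/
def inside : Set Plane := {X | γ.F X < 1}

/-- The closed region bounded by the ellipse. -/
def disc : Set Plane := {X | γ.F X ≤ 1}

/-- A normal vector of the ellipse at its point `X` (half the gradient of `F`). -/
def normal (X : Plane) : Plane :=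
  (γ.p * (X.1 - γ.centre.1) + γ.q * (X.2 - γ.centre.2),
   γ.q * (X.1 - γ.centre.1) + γ.r * (X.2 - γ.centre.2))

/-- The point where the ray from `X` in the direction `u` leaves the closed region. -/
noncomputable def hit (X u : Plane) : Plane :=
  X + (sSup {t : ℝ | 0 ≤ t ∧ X + t • u ∈ γ.disc}) • u

/-- The foci (for a circle: the centre). With `(x, y)` the coordinates relative to the centre,
`(x + i y)²` is the complex number `(r - p - 2 i q) / (p r - q²)`; for
`x² / a² + y² / b² = 1` this reads `(x + i y)² = a² - b²`. -/
def foci : Set Plane :=
  {X | (γ.p * γ.r - γ.q ^ 2) * ((X.1 - γ.centre.1) ^ 2 - (X.2 - γ.centre.2) ^ 2) = γ.r - γ.p ∧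
    (γ.p * γ.r - γ.q ^ 2) * ((X.1 - γ.centre.1) * (X.2 - γ.centre.2)) = -γ.q}

end Ellipse

/-- The mirror image of the direction `u` in the line orthogonal to `N`: the component of `u`
along `N` changes its sign, the component orthogonal to `N` is kept. -/
noncomputable def reflect (u N : Plane) : Plane := u - (2 * dot u N / dot N N) • N

/-- The light ray (starting point, direction) after `n` reflections in the ellipse, when the light
is emitted at the source `S` in the direction `(cos φ, sin φ)`. -/
noncomputable def ray (γ : Ellipse) (S : Plane) : ℕ → ℝ → Plane × Plane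
  | 0, φ => (S, (Real.cos φ, Real.sin φ))
  | n + 1, φ =>
    (γ.hit (ray γ S n φ).1 (ray γ S n φ).2,
      reflect (ray γ S n φ).2 (γ.normal (γ.hit (ray γ S n φ).1 (ray γ S n φ).2)))

/-- Homogeneous coordinates of the line through `X` with direction `u`: the line is the set of
`(x, y)` with `l 0 * x + l 1 * y + l 2 = 0`. -/
def lineOf (X u : Plane) : Fin 3 → ℝ := ![-u.2, u.1, u.2 * X.1 - u.1 * X.2]

/-- The line carrying the ray after `n` reflections. -/
noncomputable def line (γ : Ellipse) (S : Plane) (n : ℕ) (φ : ℝ) : Fin 3 → ℝ :=
  lineOf (ray γ S n φ).1 (ray γ S n φ).2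

/-- The envelope of the family of lines: homogeneous coordinates `(x : y : z)` of the point where
the line of parameter `φ` touches the envelope (the intersection point of `line φ` with the
infinitesimally close line). This is the `n`th caustic by reflection, parametrised by `φ`, as a
curve in the projective plane. -/
noncomputable def caustic (γ : Ellipse) (S : Plane) (n : ℕ) (φ : ℝ) : Fin 3 → ℝ :=
  crossProduct (line γ S n φ) (deriv (line γ S n) φ)

/-- The caustic is a smooth closed curve in the projective plane, parametrised by the circle: the
homogeneous coordinate vector depends smoothly on `φ`, is periodic with period `2 π` and never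
vanishes. -/
def IsClosedCurve (γ : Ellipse) (S : Plane) (n : ℕ) : Prop :=
  ContDiff ℝ ∞ (caustic γ S n) ∧ (∀ φ, caustic γ S n φ ≠ 0) ∧
    ∀ φ, caustic γ S n (φ + 2 * Real.pi) = caustic γ S n φ

/-- A cusp: the parametrisation of the caustic (as a curve in the projective plane) has zero
derivative at `φ`, that is, the derivative of the homogeneous coordinate vector is parallel to the
vector itself. -/
def IsCusp (γ : Ellipse) (S : Plane) (n : ℕ) (φ : ℝ) : Prop :=
  ¬ LinearIndependent ℝ ![caustic γ S n φ, deriv (caustic γ S n) φ]

/-- An ordinary (semicubical) cusp: a cusp at which, for the homogeneous coordinate vector `E`,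
the vectors `E`, `E''`, `E'''` are linearly independent (in affine coordinates: the second and
the third derivative of the parametrisation are linearly independent). -/
def IsOrdinaryCusp (γ : Ellipse) (S : Plane) (n : ℕ) (φ : ℝ) : Prop :=
  IsCusp γ S n φ ∧ LinearIndependent ℝ ![caustic γ S n φ, deriv (deriv (caustic γ S n)) φ,
    deriv (deriv (deriv (caustic γ S n))) φ]

/-- The caustic has exactly four cusps (the parameter `φ` runs over one period). -/
def HasExactlyFourCusps (γ : Ellipse) (S : Plane) (n : ℕ) : Prop :=
  {φ | φ ∈ Set.Ico 0 (2 * Real.pi) ∧ IsCusp γ S n φ}.encard = 4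

end Pool.Agent.Helper19.Caustic
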