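import Pool.Agent.Helper19.Caustic.Induct

set_option autoImplicit false

namespace Pool.Agent.Helper19.Caustic

open scoped ContDiff

theorem D3_shift {a b c : ℝ → ℝ} (ha : ContDiff ℝ 2 a) (hb : ContDiff ℝ 2 b)
    (hc : ContDiff ℝ 2 c) (k l : ℝ) (t : ℝ) :
    D3 a b (fun t => c t + (k * a t + l * b t)) t = D3 a b c t := by
  have hka : ContDiff ℝ 2 (fun t => k * a t) := contDiff_const.mul ha
  have hlb : ContDiff ℝ 2 (fun t => l * b t) := contDiff_const.mul hb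
  unfold D3
  rw [dd_add hc (hka.add hlb), dd_add hka hlb, d_add hc (hka.add hlb), d_add hka hlb,
    dd_const_mul k ha, dd_const_mul l hb, d_const_mul k ha, d_const_mul l hb]
  ring

/-- the determinant of the family of lines after `n` reflections -/
noncomputable def DD (γ : Ellipse) (S : Plane) (n : ℕ) (φ : ℝ) : ℝ :=
  D3 (fun φ => -(ray γ S n φ).2.2) (fun φ => (ray γ S n φ).2.1)
    (fun φ => (ray γ S n φ).2.2 * (ray γ S n φ).1.1 - (ray γ S n φ).2.1 * (ray γ S n φ).1.2) φ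

theorem two_le {f : ℝ → ℝ} (hf : ContDiff ℝ ∞ f) : ContDiff ℝ 2 f :=
  contDiff_infty.1 hf 2

/-- the contribution of the reflection number `n + 1` -/
noncomputable def ww (γ : Ellipse) (S : Plane) (n : ℕ) (φ : ℝ) : ℝ :=
  6 * (γ.p * γ.r - γ.q ^ 2) * (deriv (fun φ => (ray γ S (n + 1) φ).1.1) φ ^ 2 +
    deriv (fun φ => (ray γ S (n + 1) φ).1.2) φ ^ 2) /
    ((γ.normal (ray γ S (n + 1) φ).1).1 ^ 2 + (γ.normal (ray γ S (n + 1) φ).1).2 ^ 2) ^ 2

theorem DD_succ {γ : Ellipse} {S : Plane} (hS : γ.F S < 1) {n : ℕ} (h : Good γ S n) (φ : ℝ) :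
    DD γ S (n + 1) φ = DD γ S n φ + ww γ S n φ * deriv (JJ γ S) φ := by
  have h' := good_succ hS h
  have hT := two_le (T_smooth hS h)
  have a1 := two_le h.sx1
  have a2 := two_le h.sx2
  have b1 := two_le h.su1
  have b2 := two_le h.su2
  have c1 := two_le h'.sx1
  have c2 := two_le h'.sx2
  have d1 := two_le h'.su1
  have d2 := two_le h'.su2
  obtain ⟨x1, ex1⟩ : ∃ x1 : ℝ → ℝ, x1 = fun φ => (ray γ S (n + 1) φ).1.1 - γ.centre.1 := ⟨_, rfl⟩
  obtain ⟨x2, ex2⟩ : ∃ x2 : ℝ → ℝ, x2 = fun φ => (ray γ S (n + 1) φ).1.2 - γ.centre.2 := ⟨_, rfl⟩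
  have hx1 : ContDiff ℝ 2 x1 := by rw [ex1]; exact c1.sub contDiff_const
  have hx2 : ContDiff ℝ 2 x2 := by rw [ex2]; exact c2.sub contDiff_const
  have hγ : ∀ t, γ.p * x1 t ^ 2 + 2 * γ.q * x1 t * x2 t + γ.r * x2 t ^ 2 = 1 := by
    intro t
    have := F_succ h t
    rw [ex1, ex2]
    exact this
  obtain ⟨n1, en1⟩ : ∃ n1 : ℝ → ℝ, n1 = fun t => γ.p * x1 t + γ.q * x2 t := ⟨_, rfl⟩
  obtain ⟨n2, en2⟩ : ∃ n2 : ℝ → ℝ, n2 = fun t => γ.q * x1 t + γ.r * x2 t := ⟨_, rfl⟩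
  have fn1 : ∀ t, (γ.normal (ray γ S (n + 1) t).1).1 = n1 t := by
    intro t; rw [en1, ex1, ex2]; rfl
  have fn2 : ∀ t, (γ.normal (ray γ S (n + 1) t).1).2 = n2 t := by
    intro t; rw [en2, ex1, ex2]; rfl
  have eJ : JJ γ S = fun t => (ray γ S n t).2.1 * n1 t + (ray γ S n t).2.2 * n2 t := by
    funext t
    rw [← dot_succ h t, ← fn1, ← fn2]
    rfl
  have ev1 : (fun t => (ray γ S (n + 1) t).2.1) = fun t => (ray γ S n t).2.1 -
      2 * JJ γ S t / (n1 t ^ 2 + n2 t ^ 2) * n1 t := by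
    funext t
    rw [← dot_succ h t, ← fn1, ← fn2, ray_succ_snd]
    simp only [reflect, dot, Prod.fst_sub, Prod.smul_fst, smul_eq_mul, sq]
  have ev2 : (fun t => (ray γ S (n + 1) t).2.2) = fun t => (ray γ S n t).2.2 -
      2 * JJ γ S t / (n1 t ^ 2 + n2 t ^ 2) * n2 t := by
    funext t
    rw [← dot_succ h t, ← fn1, ← fn2, ray_succ_snd]
    simp only [reflect, dot, Prod.snd_sub, Prod.smul_snd, smul_eq_mul, sq]
  have key := reflect_step γ.p γ.q γ.r γ.hdet hx1 hx2 b1 b2 hγ h.unit n1 n2 (JJ γ S) _ _ en1 en2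
    eJ ev1 ev2 φ
  have s1 : DD γ S (n + 1) φ = D3 (fun t => -(ray γ S (n + 1) t).2.2)
      (fun t => (ray γ S (n + 1) t).2.1) (fun t => (ray γ S (n + 1) t).2.2 * x1 t -
        (ray γ S (n + 1) t).2.1 * x2 t) φ := by
    rw [← D3_shift d2.neg d1 ((d2.mul hx1).sub (d1.mul hx2)) (-γ.centre.1) (-γ.centre.2)]
    unfold DD
    congr 1
    funext t
    rw [ex1, ex2]
    ring
  have s2 : D3 (fun t => -(ray γ S n t).2.2)
      (fun t => (ray γ S n t).2.1) (fun t => (ray γ S n t).2.2 * x1 t -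
        (ray γ S n t).2.1 * x2 t) φ = DD γ S n φ := by
    unfold DD
    rw [← D3_shift b2.neg b1 ((b2.mul a1).sub (b1.mul a2)) (γ.centre.1) (γ.centre.2)]
    congr 1
    funext t
    rw [ex1, ex2]
    simp only [ray_succ_fst h t, Prod.fst_add, Prod.snd_add, Prod.smul_fst, Prod.smul_snd,
      smul_eq_mul]
    ring
  rw [s1, key, s2]
  have t1 : deriv x1 φ = deriv (fun φ => (ray γ S (n + 1) φ).1.1) φ := by
    rw [ex1, deriv_sub_const]
  have t2 : deriv x2 φ = deriv (fun φ => (ray γ S (n + 1) φ).1.2) φ := by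
    rw [ex2, deriv_sub_const]
  unfold ww
  rw [t1, t2, fn1, fn2]

theorem DD_zero (γ : Ellipse) (S : Plane) (φ : ℝ) : DD γ S 0 φ = 0 := by
  have hc : ContDiff ℝ 2 Real.cos := Real.contDiff_cos
  have hs : ContDiff ℝ 2 Real.sin := Real.contDiff_sin
  have h0 : ContDiff ℝ 2 (fun _ : ℝ => (0 : ℝ)) := contDiff_const
  have h1 := D3_shift hs.neg hc h0 (-S.1) (-S.2) φ
  have h2 : DD γ S 0 φ = D3 (fun t => -Real.sin t) Real.cos
      (fun t => 0 + (-S.1 * -Real.sin t + -S.2 * Real.cos t)) φ := by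
    unfold DD
    congr 1
    funext t
    simp only [ray]
    ring
  rw [h2, h1]
  unfold D3
  have e0 : deriv (fun _ : ℝ => (0 : ℝ)) = fun _ => 0 := by
    funext t; exact deriv_const t 0
  rw [e0, e0]
  ring

theorem ww_nonneg (γ : Ellipse) (S : Plane) (n : ℕ) (φ : ℝ) : 0 ≤ ww γ S n φ := by
  unfold ww
  have := γ.hdet
  positivity

theorem T_zero_pos {γ : Ellipse} {S : Plane} (hS : γ.F S < 1) (φ : ℝ) : 0 < T γ S 0 φ := by
  have h := good_zero γ hS
  have ha := qf_pos_unit γ (h.unit φ)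
  rw [T_eq h]
  apply div_pos _ ha
  have h1 : dot (ray γ S 0 φ).2 (γ.normal (ray γ S 0 φ).1) < JJ γ S φ := by
    apply lt_of_le_of_lt (le_abs_self _)
    rw [← Real.sqrt_sq_eq_abs]
    unfold JJ
    apply Real.sqrt_lt_sqrt (sq_nonneg _)
    have h2 : 0 < qf γ (Real.cos φ, Real.sin φ) * (1 - γ.F S) :=
      mul_pos (qf_pos_unit γ (cs_unit φ)) (by linarith)
    change dot (Real.cos φ, Real.sin φ) (γ.normal S) ^ 2 < II γ S (Real.cos φ, Real.sin φ)
    unfold II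
    linarith
  linarith

theorem ww_zero_pos {γ : Ellipse} {S : Plane} (hS : γ.F S < 1) (φ : ℝ) : 0 < ww γ S 0 φ := by
  have h := good_zero γ hS
  have hN := normal_sq_pos γ (F_succ h φ)
  unfold ww
  apply div_pos _ (pow_pos hN 2)
  apply mul_pos (mul_pos (by norm_num) γ.hdet)
  have hT := (cd_diff (two_le (T_smooth hS h)) φ).hasDerivAt
  have e1 : (fun φ => (ray γ S (0 + 1) φ).1.1) = fun φ => S.1 + T γ S 0 φ * Real.cos φ := by
    funext t; rw [ray_succ_fst h]; rfl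
  have e2 : (fun φ => (ray γ S (0 + 1) φ).1.2) = fun φ => S.2 + T γ S 0 φ * Real.sin φ := by
    funext t; rw [ray_succ_fst h]; rfl
  have g1 : deriv (fun φ => T γ S 0 φ * Real.cos φ) φ = _ :=
    (hT.mul (Real.hasDerivAt_cos φ)).deriv
  have g2 : deriv (fun φ => T γ S 0 φ * Real.sin φ) φ = _ :=
    (hT.mul (Real.hasDerivAt_sin φ)).deriv
  rw [e1, e2, deriv_const_add, deriv_const_add, g1, g2]
  have h3 := T_zero_pos hS φ
  have h4 := Real.sin_sq_add_cos_sq φ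
  have h5 : (deriv (T γ S 0) φ * Real.cos φ + T γ S 0 φ * -Real.sin φ) ^ 2 +
      (deriv (T γ S 0) φ * Real.sin φ + T γ S 0 φ * Real.cos φ) ^ 2 =
      deriv (T γ S 0) φ ^ 2 + T γ S 0 φ ^ 2 := by
    linear_combination (deriv (T γ S 0) φ ^ 2 + T γ S 0 φ ^ 2) * h4
  rw [h5]
  positivity

/-- **Key formula**: the determinant is a positive function times the derivative of
Joachimsthal's integral. -/
theorem DD_eq (γ : Ellipse) {S : Plane} (hS : γ.F S < 1) (n : ℕ) :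
    ∃ W : ℝ → ℝ, (∀ φ, 0 < W φ) ∧ ∀ φ, DD γ S (n + 1) φ = W φ * deriv (JJ γ S) φ := by
  induction n with
  | zero =>
    refine ⟨ww γ S 0, ww_zero_pos hS, fun φ => ?_⟩
    rw [DD_succ hS (good_zero γ hS), DD_zero, zero_add]
  | succ n ih =>
    obtain ⟨W, hW, h⟩ := ih
    refine ⟨fun φ => W φ + ww γ S (n + 1) φ,
      fun φ => add_pos_of_pos_of_nonneg (hW φ) (ww_nonneg _ _ _ _), fun φ => ?_⟩
    rw [DD_succ hS (good γ hS (n + 1)), h]
    ring

end Pool.Agent.Helper19.Caustic
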