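import Pool.Agent.Helper19.Caustic.Step
import Pool.Agent.Helper19.Caustic.Defs

set_option autoImplicit false

namespace Pool.Agent.Helper19.Caustic

open scoped ContDiff

/-- the quadratic form of the ellipse -/
def qf (γ : Ellipse) (u : Plane) : ℝ := γ.p * u.1 ^ 2 + 2 * γ.q * u.1 * u.2 + γ.r * u.2 ^ 2

theorem qf_pos (γ : Ellipse) {u : Plane} (hu : u.1 ≠ 0 ∨ u.2 ≠ 0) : 0 < qf γ u := by
  have h1 := γ.hp
  have h2 := γ.hdet
  have h3 : γ.p * qf γ u = (γ.p * u.1 + γ.q * u.2) ^ 2 + (γ.p * γ.r - γ.q ^ 2) * u.2 ^ 2 := by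
    unfold qf; ring
  have h4 : 0 < γ.p * qf γ u := by
    rw [h3]
    by_cases h : u.2 = 0
    · have h5 : u.1 ≠ 0 := by
        rcases hu with h6 | h6
        · exact h6
        · exact absurd h h6
      rw [h]
      have h7 : γ.p * u.1 ≠ 0 := mul_ne_zero h1.ne' h5
      have h8 := pow_pos (abs_pos.2 h7) 2
      rw [sq_abs] at h8
      nlinarith
    · have h5 : 0 < u.2 ^ 2 := by positivity
      have h6 := mul_pos h2 h5
      nlinarith [sq_nonneg (γ.p * u.1 + γ.q * u.2)]
  exact (mul_pos_iff_of_pos_left h1).1 h4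

theorem qf_pos_unit (γ : Ellipse) {u : Plane} (hu : u.1 ^ 2 + u.2 ^ 2 = 1) : 0 < qf γ u := by
  apply qf_pos
  by_contra h
  push Not at h
  rw [h.1, h.2] at hu
  norm_num at hu

theorem F_add (γ : Ellipse) (X u : Plane) (t : ℝ) :
    γ.F (X + t • u) = γ.F X + 2 * t * dot u (γ.normal X) + t ^ 2 * qf γ u := by
  simp only [Ellipse.F, Ellipse.normal, dot, qf, Prod.fst_add, Prod.snd_add, Prod.smul_fst,
    Prod.smul_snd, smul_eq_mul]
  ring

theorem normal_add (γ : Ellipse) (X u : Plane) (t : ℝ) :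
    dot u (γ.normal (X + t • u)) = dot u (γ.normal X) + t * qf γ u := by
  simp only [Ellipse.normal, dot, qf, Prod.fst_add, Prod.snd_add, Prod.smul_fst,
    Prod.smul_snd, smul_eq_mul]
  ring

/-- Joachimsthal's integral (squared) of the ray `(X, u)` -/
noncomputable def II (γ : Ellipse) (X u : Plane) : ℝ :=
  dot u (γ.normal X) ^ 2 + qf γ u * (1 - γ.F X)

/-- the time of the next reflection -/
noncomputable def tt (γ : Ellipse) (X u : Plane) : ℝ :=
  (-dot u (γ.normal X) + Real.sqrt (II γ X u)) / qf γ u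

theorem hit_eq (γ : Ellipse) {X u : Plane} (hX : γ.F X ≤ 1) (hu : u.1 ^ 2 + u.2 ^ 2 = 1) :
    γ.hit X u = X + tt γ X u • u := by
  have ha := qf_pos_unit γ hu
  set a := qf γ u with hadef
  set b := dot u (γ.normal X) with hbdef
  set c := γ.F X with hcdef
  have hI : II γ X u = b ^ 2 + a * (1 - c) := rfl
  have hI0 : b ^ 2 ≤ II γ X u := by
    rw [hI]
    have : 0 ≤ a * (1 - c) := mul_nonneg ha.le (by linarith)
    linarith
  set R := Real.sqrt (II γ X u) with hR
  have hRsq : R ^ 2 = b ^ 2 + a * (1 - c) := by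
    rw [← hI]; exact Real.sq_sqrt (le_trans (sq_nonneg _) hI0)
  have hRb : |b| ≤ R := by
    rw [← Real.sqrt_sq_eq_abs]; exact Real.sqrt_le_sqrt hI0
  have hRb1 := (abs_le.1 hRb).1
  have hRb2 := (abs_le.1 hRb).2
  have ht : tt γ X u = (-b + R) / a := rfl
  have ht0 : 0 ≤ tt γ X u := by
    rw [ht]; apply div_nonneg _ ha.le; linarith
  have hset : {t : ℝ | 0 ≤ t ∧ X + t • u ∈ γ.disc} = Set.Icc 0 (tt γ X u) := by
    ext t
    simp only [Set.mem_ofPred_eq, Set.mem_Icc, Ellipse.disc]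
    constructor
    · rintro ⟨h1, h2⟩
      refine ⟨h1, ?_⟩
      rw [F_add, ← hadef, ← hbdef, ← hcdef] at h2
      rw [ht, le_div_iff₀ ha]
      by_contra h3
      push Not at h3
      have h4 : a * (a * t ^ 2 + 2 * b * t - (1 - c)) = (a * t + b - R) * (a * t + b + R) := by
        linear_combination hRsq
      have h5 : 0 < a * t + b - R := by linarith
      have h6 : 0 < a * t + b + R := by linarith
      have h7 := mul_pos h5 h6
      rw [← h4] at h7
      have h8 := (mul_pos_iff_of_pos_left ha).1 h7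
      nlinarith
    · rintro ⟨h1, h2⟩
      refine ⟨h1, ?_⟩
      rw [F_add, ← hadef, ← hbdef, ← hcdef]
      rw [ht, le_div_iff₀ ha] at h2
      have h4 : a * (a * t ^ 2 + 2 * b * t - (1 - c)) = (a * t + b - R) * (a * t + b + R) := by
        linear_combination hRsq
      have h5 : a * t + b - R ≤ 0 := by linarith
      have h6 : 0 ≤ a * t + b + R := by
        have := mul_nonneg ha.le h1
        linarith
      have h7 := mul_nonpos_of_nonpos_of_nonneg h5 h6
      rw [← h4] at h7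
      have h8 : a * t ^ 2 + 2 * b * t - (1 - c) ≤ 0 := by
        by_contra h9
        push Not at h9
        have := mul_pos ha h9
        linarith
      nlinarith
  unfold Ellipse.hit
  rw [hset, csSup_Icc ht0]

theorem F_hit (γ : Ellipse) {X u : Plane} (hX : γ.F X ≤ 1) (hu : u.1 ^ 2 + u.2 ^ 2 = 1) :
    γ.F (γ.hit X u) = 1 := by
  rw [hit_eq γ hX hu, F_add]
  have ha := qf_pos_unit γ hu
  have hI0 : 0 ≤ II γ X u := by
    unfold II
    have : 0 ≤ qf γ u * (1 - γ.F X) := mul_nonneg ha.le (by linarith)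
    positivity
  have hRsq := Real.sq_sqrt hI0
  have h1 : tt γ X u * qf γ u = -dot u (γ.normal X) + Real.sqrt (II γ X u) := by
    unfold tt; rw [div_mul_cancel₀ _ ha.ne']
  have h2 : qf γ u * (γ.F X + 2 * tt γ X u * dot u (γ.normal X) + tt γ X u ^ 2 * qf γ u - 1) =
      0 := by
    have h3 : II γ X u = dot u (γ.normal X) ^ 2 + qf γ u * (1 - γ.F X) := rfl
    linear_combination (tt γ X u * qf γ u + dot u (γ.normal X) + Real.sqrt (II γ X u)) * h1 +
      hRsq + h3
  rcases mul_eq_zero.1 h2 with h3 | h3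
  · exact absurd h3 ha.ne'
  · linarith

theorem normal_hit (γ : Ellipse) {X u : Plane} (hX : γ.F X ≤ 1) (hu : u.1 ^ 2 + u.2 ^ 2 = 1) :
    dot u (γ.normal (γ.hit X u)) = Real.sqrt (II γ X u) := by
  rw [hit_eq γ hX hu, normal_add]
  have ha := qf_pos_unit γ hu
  have h1 : tt γ X u * qf γ u = -dot u (γ.normal X) + Real.sqrt (II γ X u) := by
    unfold tt; rw [div_mul_cancel₀ _ ha.ne']
  rw [h1]; ring

theorem normal_sq_pos (γ : Ellipse) {X : Plane} (hX : γ.F X = 1) :
    0 < (γ.normal X).1 ^ 2 + (γ.normal X).2 ^ 2 := by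
  rcases (add_nonneg (sq_nonneg (γ.normal X).1) (sq_nonneg (γ.normal X).2)).lt_or_eq with h | h
  · exact h
  · exfalso
    have h1 : (γ.normal X).1 = 0 := by
      nlinarith [sq_nonneg (γ.normal X).1, sq_nonneg (γ.normal X).2]
    have h2 : (γ.normal X).2 = 0 := by
      nlinarith [sq_nonneg (γ.normal X).1, sq_nonneg (γ.normal X).2]
    have h3 : (X.1 - γ.centre.1) * (γ.normal X).1 + (X.2 - γ.centre.2) * (γ.normal X).2 = 1 := by
      rw [← hX]; simp only [Ellipse.normal, Ellipse.F]; ring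
    rw [h1, h2] at h3
    norm_num at h3

theorem reflect_unit {u N : Plane} (hN : 0 < N.1 ^ 2 + N.2 ^ 2) (hu : u.1 ^ 2 + u.2 ^ 2 = 1) :
    (reflect u N).1 ^ 2 + (reflect u N).2 ^ 2 = 1 := by
  simp only [reflect, dot, Prod.fst_sub, Prod.snd_sub, Prod.smul_fst, Prod.smul_snd, smul_eq_mul]
  have h : N.1 * N.1 + N.2 * N.2 ≠ 0 := by nlinarith
  field_simp
  linear_combination (N.1 * N.1 + N.2 * N.2) ^ 2 * hu

theorem dot_reflect {u N : Plane} (hN : 0 < N.1 ^ 2 + N.2 ^ 2) :
    dot (reflect u N) N = -dot u N := by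
  simp only [reflect, dot, Prod.fst_sub, Prod.snd_sub, Prod.smul_fst, Prod.smul_snd, smul_eq_mul]
  have h : N.1 * N.1 + N.2 * N.2 ≠ 0 := by nlinarith
  field_simp
  ring

end Pool.Agent.Helper19.Caustic
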