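import Pool.Agent.Helper19.Caustic.Hit

set_option autoImplicit false

namespace Pool.Agent.Helper19.Caustic

open scoped ContDiff

/-- properties of the ray after `n` reflections -/
structure Good (γ : Ellipse) (S : Plane) (n : ℕ) : Prop where
  sx1 : ContDiff ℝ ∞ (fun φ => (ray γ S n φ).1.1)
  sx2 : ContDiff ℝ ∞ (fun φ => (ray γ S n φ).1.2)
  su1 : ContDiff ℝ ∞ (fun φ => (ray γ S n φ).2.1)
  su2 : ContDiff ℝ ∞ (fun φ => (ray γ S n φ).2.2)
  unit : ∀ φ, (ray γ S n φ).2.1 ^ 2 + (ray γ S n φ).2.2 ^ 2 = 1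
  Fle : ∀ φ, γ.F (ray γ S n φ).1 ≤ 1
  inv : ∀ φ, II γ (ray γ S n φ).1 (ray γ S n φ).2 = II γ S (Real.cos φ, Real.sin φ)

/-- Joachimsthal's integral as a function of the initial direction -/
noncomputable def JJ (γ : Ellipse) (S : Plane) (φ : ℝ) : ℝ :=
  Real.sqrt (II γ S (Real.cos φ, Real.sin φ))

theorem cs_unit (φ : ℝ) : ((Real.cos φ, Real.sin φ) : Plane).1 ^ 2 +
    ((Real.cos φ, Real.sin φ) : Plane).2 ^ 2 = 1 := Real.cos_sq_add_sin_sq φ

theorem II_pos (γ : Ellipse) {S : Plane} (hS : γ.F S < 1) (φ : ℝ) :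
    0 < II γ S (Real.cos φ, Real.sin φ) := by
  unfold II
  have h1 := qf_pos_unit γ (cs_unit φ)
  have h2 : 0 < qf γ (Real.cos φ, Real.sin φ) * (1 - γ.F S) := mul_pos h1 (by linarith)
  positivity

theorem II_smooth (γ : Ellipse) (S : Plane) :
    ContDiff ℝ ∞ (fun φ => II γ S (Real.cos φ, Real.sin φ)) := by
  unfold II dot qf
  have hc := Real.contDiff_cos (n := ∞)
  have hs := Real.contDiff_sin (n := ∞)
  fun_prop

theorem JJ_smooth (γ : Ellipse) {S : Plane} (hS : γ.F S < 1) : ContDiff ℝ ∞ (JJ γ S) :=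
  (II_smooth γ S).sqrt (fun φ => (II_pos γ hS φ).ne')

theorem JJ_pos (γ : Ellipse) {S : Plane} (hS : γ.F S < 1) (φ : ℝ) : 0 < JJ γ S φ :=
  Real.sqrt_pos.2 (II_pos γ hS φ)

theorem good_zero (γ : Ellipse) {S : Plane} (hS : γ.F S < 1) : Good γ S 0 where
  sx1 := (contDiff_const : ContDiff ℝ ∞ (fun _ : ℝ => S.1))
  sx2 := (contDiff_const : ContDiff ℝ ∞ (fun _ : ℝ => S.2))
  su1 := Real.contDiff_cos
  su2 := Real.contDiff_sin
  unit := fun φ => cs_unit φ
  Fle := fun _ => hS.le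
  inv := fun _ => rfl

/-- the time of flight -/
noncomputable def T (γ : Ellipse) (S : Plane) (n : ℕ) (φ : ℝ) : ℝ :=
  tt γ (ray γ S n φ).1 (ray γ S n φ).2

theorem ray_succ_fst {γ : Ellipse} {S : Plane} {n : ℕ} (h : Good γ S n) (φ : ℝ) :
    (ray γ S (n + 1) φ).1 = (ray γ S n φ).1 + T γ S n φ • (ray γ S n φ).2 :=
  hit_eq γ (h.Fle φ) (h.unit φ)

theorem ray_succ_snd (γ : Ellipse) (S : Plane) (n : ℕ) (φ : ℝ) :
    (ray γ S (n + 1) φ).2 = reflect (ray γ S n φ).2 (γ.normal (ray γ S (n + 1) φ).1) := rfl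

theorem F_succ {γ : Ellipse} {S : Plane} {n : ℕ} (h : Good γ S n) (φ : ℝ) :
    γ.F (ray γ S (n + 1) φ).1 = 1 := F_hit γ (h.Fle φ) (h.unit φ)

theorem dot_succ {γ : Ellipse} {S : Plane} {n : ℕ} (h : Good γ S n) (φ : ℝ) :
    dot (ray γ S n φ).2 (γ.normal (ray γ S (n + 1) φ).1) = JJ γ S φ := by
  have h1 := normal_hit γ (h.Fle φ) (h.unit φ)
  rw [h.inv φ] at h1
  exact h1

theorem T_eq {γ : Ellipse} {S : Plane} {n : ℕ} (h : Good γ S n) (φ : ℝ) :
    T γ S n φ = (-dot (ray γ S n φ).2 (γ.normal (ray γ S n φ).1) + JJ γ S φ) /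
      qf γ (ray γ S n φ).2 := by
  unfold T tt JJ
  rw [h.inv φ]

theorem T_smooth {γ : Ellipse} {S : Plane} (hS : γ.F S < 1) {n : ℕ} (h : Good γ S n) :
    ContDiff ℝ ∞ (T γ S n) := by
  have h0 : T γ S n = fun φ => (-dot (ray γ S n φ).2 (γ.normal (ray γ S n φ).1) + JJ γ S φ) /
      qf γ (ray γ S n φ).2 := funext (T_eq h)
  rw [h0]
  have hJ := JJ_smooth γ hS
  have h1 := h.sx1
  have h2 := h.sx2
  have h3 := h.su1
  have h4 := h.su2
  refine ContDiff.div ?_ ?_ (fun φ => (qf_pos_unit γ (h.unit φ)).ne')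
  · unfold dot Ellipse.normal
    fun_prop
  · unfold qf
    fun_prop

theorem good_succ {γ : Ellipse} {S : Plane} (hS : γ.F S < 1) {n : ℕ} (h : Good γ S n) :
    Good γ S (n + 1) := by
  have hT := T_smooth hS h
  have h1 := h.sx1
  have h2 := h.sx2
  have h3 := h.su1
  have h4 := h.su2
  have k1 : ContDiff ℝ ∞ (fun φ => (ray γ S (n + 1) φ).1.1) := by
    have : (fun φ => (ray γ S (n + 1) φ).1.1) =
        fun φ => (ray γ S n φ).1.1 + T γ S n φ * (ray γ S n φ).2.1 := by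
      funext φ; rw [ray_succ_fst h]; rfl
    rw [this]; fun_prop
  have k2 : ContDiff ℝ ∞ (fun φ => (ray γ S (n + 1) φ).1.2) := by
    have : (fun φ => (ray γ S (n + 1) φ).1.2) =
        fun φ => (ray γ S n φ).1.2 + T γ S n φ * (ray γ S n φ).2.2 := by
      funext φ; rw [ray_succ_fst h]; rfl
    rw [this]; fun_prop
  have hν : ∀ φ, 0 < (γ.normal (ray γ S (n + 1) φ).1).1 ^ 2 +
      (γ.normal (ray γ S (n + 1) φ).1).2 ^ 2 := fun φ => normal_sq_pos γ (F_succ h φ)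
  have hν' : ∀ φ, dot (γ.normal (ray γ S (n + 1) φ).1) (γ.normal (ray γ S (n + 1) φ).1) ≠ 0 := by
    intro φ
    have := hν φ
    unfold dot
    nlinarith
  have kn1 : ContDiff ℝ ∞ (fun φ => (γ.normal (ray γ S (n + 1) φ).1).1) := by
    unfold Ellipse.normal; fun_prop
  have kn2 : ContDiff ℝ ∞ (fun φ => (γ.normal (ray γ S (n + 1) φ).1).2) := by
    unfold Ellipse.normal; fun_prop
  have kf : ContDiff ℝ ∞ (fun φ => 2 * dot (ray γ S n φ).2 (γ.normal (ray γ S (n + 1) φ).1) /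
      dot (γ.normal (ray γ S (n + 1) φ).1) (γ.normal (ray γ S (n + 1) φ).1)) := by
    refine ContDiff.div ?_ ?_ hν'
    · unfold dot; fun_prop
    · unfold dot; fun_prop
  refine ⟨k1, k2, ?_, ?_, ?_, ?_, ?_⟩
  · have : (fun φ => (ray γ S (n + 1) φ).2.1) = fun φ => (ray γ S n φ).2.1 -
        (2 * dot (ray γ S n φ).2 (γ.normal (ray γ S (n + 1) φ).1) /
      dot (γ.normal (ray γ S (n + 1) φ).1) (γ.normal (ray γ S (n + 1) φ).1)) *
      (γ.normal (ray γ S (n + 1) φ).1).1 := rfl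
    rw [this]
    exact h3.sub (kf.mul kn1)
  · have : (fun φ => (ray γ S (n + 1) φ).2.2) = fun φ => (ray γ S n φ).2.2 -
        (2 * dot (ray γ S n φ).2 (γ.normal (ray γ S (n + 1) φ).1) /
      dot (γ.normal (ray γ S (n + 1) φ).1) (γ.normal (ray γ S (n + 1) φ).1)) *
      (γ.normal (ray γ S (n + 1) φ).1).2 := rfl
    rw [this]
    exact h4.sub (kf.mul kn2)
  · intro φ
    rw [ray_succ_snd]
    exact reflect_unit (hν φ) (h.unit φ)
  · intro φ
    exact (F_succ h φ).le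
  · intro φ
    have e1 : II γ (ray γ S (n + 1) φ).1 (ray γ S (n + 1) φ).2 =
        dot (ray γ S (n + 1) φ).2 (γ.normal (ray γ S (n + 1) φ).1) ^ 2 := by
      unfold II
      rw [F_succ h φ]; ring
    rw [e1, ray_succ_snd, dot_reflect (hν φ), dot_succ h φ, neg_sq]
    exact Real.sq_sqrt (II_pos γ hS φ).le

theorem good (γ : Ellipse) {S : Plane} (hS : γ.F S < 1) (n : ℕ) : Good γ S n := by
  induction n with
  | zero => exact good_zero γ hS
  | succ n ih => exact good_succ hS ih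

end Pool.Agent.Helper19.Caustic
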