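import Mathlib

set_option autoImplicit false

namespace Pool.Agent.Helper19.Caustic

/-- determinant of a curve in three dimensional space and its first two derivatives -/
noncomputable def D3 (a b c : ℝ → ℝ) (t : ℝ) : ℝ :=
  a t * (deriv b t * deriv (deriv c) t - deriv (deriv b) t * deriv c t) -
  b t * (deriv a t * deriv (deriv c) t - deriv (deriv a) t * deriv c t) +
  c t * (deriv a t * deriv (deriv b) t - deriv (deriv a) t * deriv b t)

theorem cd_diff {f : ℝ → ℝ} (hf : ContDiff ℝ 2 f) : Differentiable ℝ f :=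
  hf.differentiable (by norm_num)

theorem cd_deriv {f : ℝ → ℝ} (hf : ContDiff ℝ 2 f) : Differentiable ℝ (deriv f) := by
  have h : ContDiff ℝ (1 + 1) f := by
    have : (1 + 1 : WithTop ℕ∞) = 2 := by norm_num
    rw [this]; exact hf
  exact (contDiff_succ_iff_deriv.1 h).2.2.differentiable one_ne_zero

theorem d_mul {f g : ℝ → ℝ} (hf : ContDiff ℝ 2 f) (hg : ContDiff ℝ 2 g) :
    deriv (fun t => f t * g t) = fun t => deriv f t * g t + f t * deriv g t := by
  funext t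
  exact deriv_fun_mul (cd_diff hf t) (cd_diff hg t)

theorem dd_mul {f g : ℝ → ℝ} (hf : ContDiff ℝ 2 f) (hg : ContDiff ℝ 2 g) (t : ℝ) :
    deriv (deriv (fun t => f t * g t)) t =
      deriv (deriv f) t * g t + 2 * (deriv f t * deriv g t) + f t * deriv (deriv g) t := by
  rw [d_mul hf hg]
  have h1 := ((cd_deriv hf t).hasDerivAt.mul (cd_diff hg t).hasDerivAt).add
    ((cd_diff hf t).hasDerivAt.mul (cd_deriv hg t).hasDerivAt)
  have h2 : HasDerivAt (fun t => deriv f t * g t + f t * deriv g t)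
      (deriv (deriv f) t * g t + deriv f t * deriv g t +
        (deriv f t * deriv g t + f t * deriv (deriv g) t)) t := h1
  rw [h2.deriv]
  ring

/-- scaling of the determinant -/
theorem D3_smul {f a b c : ℝ → ℝ} (hf : ContDiff ℝ 2 f) (ha : ContDiff ℝ 2 a)
    (hb : ContDiff ℝ 2 b) (hc : ContDiff ℝ 2 c) (t : ℝ) :
    D3 (fun t => f t * a t) (fun t => f t * b t) (fun t => f t * c t) t =
      f t ^ 3 * D3 a b c t := by
  unfold D3
  rw [dd_mul hf ha, dd_mul hf hb, dd_mul hf hc, d_mul hf ha, d_mul hf hb, d_mul hf hc]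
  ring

theorem d_add {f g : ℝ → ℝ} (hf : ContDiff ℝ 2 f) (hg : ContDiff ℝ 2 g) :
    deriv (fun t => f t + g t) = fun t => deriv f t + deriv g t := by
  funext t
  exact deriv_fun_add (cd_diff hf t) (cd_diff hg t)

theorem dd_add {f g : ℝ → ℝ} (hf : ContDiff ℝ 2 f) (hg : ContDiff ℝ 2 g) (t : ℝ) :
    deriv (deriv (fun t => f t + g t)) t = deriv (deriv f) t + deriv (deriv g) t := by
  rw [d_add hf hg]
  exact deriv_fun_add (cd_deriv hf t) (cd_deriv hg t)

theorem d_sub {f g : ℝ → ℝ} (hf : ContDiff ℝ 2 f) (hg : ContDiff ℝ 2 g) :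
    deriv (fun t => f t - g t) = fun t => deriv f t - deriv g t := by
  funext t
  exact deriv_fun_sub (cd_diff hf t) (cd_diff hg t)

theorem dd_sub {f g : ℝ → ℝ} (hf : ContDiff ℝ 2 f) (hg : ContDiff ℝ 2 g) (t : ℝ) :
    deriv (deriv (fun t => f t - g t)) t = deriv (deriv f) t - deriv (deriv g) t := by
  rw [d_sub hf hg]
  exact deriv_fun_sub (cd_deriv hf t) (cd_deriv hg t)

theorem d_neg {f : ℝ → ℝ} : deriv (fun t => -f t) = fun t => -deriv f t := by
  funext t
  exact deriv.fun_neg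

theorem dd_neg {f : ℝ → ℝ} (t : ℝ) :
    deriv (deriv (fun t => -f t)) t = -deriv (deriv f) t := by
  rw [d_neg]
  exact deriv.fun_neg

theorem d_const_mul {f : ℝ → ℝ} (k : ℝ) (hf : ContDiff ℝ 2 f) :
    deriv (fun t => k * f t) = fun t => k * deriv f t := by
  funext t
  exact deriv_const_mul k (cd_diff hf t)

theorem dd_const_mul {f : ℝ → ℝ} (k : ℝ) (hf : ContDiff ℝ 2 f) (t : ℝ) :
    deriv (deriv (fun t => k * f t)) t = k * deriv (deriv f) t := by
  rw [d_const_mul k hf]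
  exact deriv_const_mul k (cd_deriv hf t)

/-- the determinant of the family of lines through `x` with direction `u` -/
theorem D3_line {x1 x2 u1 u2 : ℝ → ℝ} (h1 : ContDiff ℝ 2 x1) (h2 : ContDiff ℝ 2 x2)
    (k1 : ContDiff ℝ 2 u1) (k2 : ContDiff ℝ 2 u2) (t : ℝ) :
    D3 (fun t => -u2 t) u1 (fun t => u2 t * x1 t - u1 t * x2 t) t =
      (u1 t * deriv x2 t - u2 t * deriv x1 t) *
        (u1 t * deriv (deriv u2) t - u2 t * deriv (deriv u1) t) -
      (2 * (deriv u1 t * deriv x2 t - deriv u2 t * deriv x1 t) +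
        (u1 t * deriv (deriv x2) t - u2 t * deriv (deriv x1) t)) *
        (u1 t * deriv u2 t - u2 t * deriv u1 t) := by
  unfold D3
  rw [dd_sub (k2.mul h1) (k1.mul h2), dd_mul k2 h1, dd_mul k1 h2, d_sub (k2.mul h1) (k1.mul h2),
    d_mul k2 h1, d_mul k1 h2, dd_neg, d_neg]
  ring

/-- the algebraic core -/
theorem core_alg (s s1 C C1 C2 S S1 S2 ν a1 b1 b2 δ : ℝ) (r0 : C ^ 2 + S ^ 2 = ν)
    (r1 : C * C1 + S * S1 = a1) (hb1 : b1 = s * δ) (hb2 : b2 = s1 * δ) :
    (s * (-C) * ν * (ν * ((-C) * S2 - S * (-C2)) + 2 * (((-C) * (-C1) + S * S1) * b1 +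
        ((-C) * S1 - S * (-C1)) * a1) + ((-C) ^ 2 + S ^ 2) * b2) -
      (2 * (s * ((-C1) * ν + (-C) * a1 - S * b1)) + (s1 * (-C) * ν + s * ((-C) * a1 + S * b1))) *
        (ν * ((-C) * S1 - S * (-C1)) + b1 * ((-C) ^ 2 + S ^ 2))) -
    (s * C * ν * (ν * (C * S2 - S * C2) + 2 * ((C * C1 + S * S1) * b1 +
        (C * S1 - S * C1) * a1) + (C ^ 2 + S ^ 2) * b2) -
      (2 * (s * (C1 * ν + C * a1 - S * b1)) + (s1 * C * ν + s * (C * a1 + S * b1))) *
        (ν * (C * S1 - S * C1) + b1 * (C ^ 2 + S ^ 2))) = 6 * δ * s ^ 2 * C1 * ν ^ 2 := by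
  subst r0 r1 hb1 hb2
  ring

end Pool.Agent.Helper19.Caustic
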