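import Pool.Agent.Helper19.Caustic.Semi

set_option autoImplicit false

namespace Pool.Agent.Helper19.Caustic

open scoped ContDiff

/-- coefficient of `sin 2φ` -/
noncomputable def cA (γ : Ellipse) (S : Plane) : ℝ :=
  -((γ.p * γ.r - γ.q ^ 2) * ((S.1 - γ.centre.1) ^ 2 - (S.2 - γ.centre.2) ^ 2) + γ.p - γ.r)

/-- coefficient of `cos 2φ` -/
noncomputable def cB (γ : Ellipse) (S : Plane) : ℝ :=
  2 * ((γ.p * γ.r - γ.q ^ 2) * ((S.1 - γ.centre.1) * (S.2 - γ.centre.2)) + γ.q)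

theorem II_deriv (γ : Ellipse) (S : Plane) (φ : ℝ) :
    HasDerivAt (fun φ => II γ S (Real.cos φ, Real.sin φ))
      (cA γ S * Real.sin (2 * φ) + cB γ S * Real.cos (2 * φ)) φ := by
  have hc := Real.hasDerivAt_cos φ
  have hs := Real.hasDerivAt_sin φ
  have h1 := (hc.mul_const (γ.normal S).1).add (hs.mul_const (γ.normal S).2)
  have h2 := (((hc.mul hc).const_mul γ.p).add ((hc.mul hs).const_mul (2 * γ.q))).add
    ((hs.mul hs).const_mul γ.r)
  have h3 := (h1.mul h1).add (h2.mul_const (1 - γ.F S))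
  have e : (fun φ => II γ S (Real.cos φ, Real.sin φ)) = fun φ =>
      (Real.cos φ * (γ.normal S).1 + Real.sin φ * (γ.normal S).2) *
        (Real.cos φ * (γ.normal S).1 + Real.sin φ * (γ.normal S).2) +
      (γ.p * (Real.cos φ * Real.cos φ) + 2 * γ.q * (Real.cos φ * Real.sin φ) +
        γ.r * (Real.sin φ * Real.sin φ)) * (1 - γ.F S) := by
    funext t
    simp only [II, dot, qf]
    ring
  rw [e]
  refine HasDerivAt.congr_deriv h3 ?_
  rw [Real.sin_two_mul, Real.cos_two_mul']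
  simp only [Pi.add_apply, Pi.mul_apply, cA, cB, Ellipse.F, Ellipse.normal]
  ring

theorem JJ_sq (γ : Ellipse) {S : Plane} (hS : γ.F S < 1) (φ : ℝ) :
    JJ γ S φ * JJ γ S φ = II γ S (Real.cos φ, Real.sin φ) :=
  Real.mul_self_sqrt (II_pos γ hS φ).le

theorem JJ_deriv (γ : Ellipse) {S : Plane} (hS : γ.F S < 1) (φ : ℝ) :
    2 * JJ γ S φ * deriv (JJ γ S) φ =
      cA γ S * Real.sin (2 * φ) + cB γ S * Real.cos (2 * φ) := by
  have h := diff_of (JJ_smooth γ hS) φ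
  have h2 := (h.mul h).congr_of_eventuallyEq
    (f₁ := fun φ => II γ S (Real.cos φ, Real.sin φ))
    (Filter.Eventually.of_forall (fun t => (JJ_sq γ hS t).symm))
  have h3 := h2.unique (II_deriv γ S φ)
  linarith

theorem JJ_deriv2 (γ : Ellipse) {S : Plane} (hS : γ.F S < 1) (φ : ℝ)
    (h0 : deriv (JJ γ S) φ = 0) :
    2 * JJ γ S φ * deriv (deriv (JJ γ S)) φ =
      2 * (cA γ S * Real.cos (2 * φ) - cB γ S * Real.sin (2 * φ)) := by
  have h := diff_of (JJ_smooth γ hS) φ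
  have h' := diff_of (smooth_deriv (JJ_smooth γ hS)) φ
  have h2 := ((h.const_mul 2).mul h').congr_of_eventuallyEq
    (f₁ := fun φ => cA γ S * Real.sin (2 * φ) + cB γ S * Real.cos (2 * φ))
    (Filter.Eventually.of_forall (fun t => (JJ_deriv γ hS t).symm))
  have hl : HasDerivAt (fun φ : ℝ => 2 * φ) 2 φ := by
    simpa using (hasDerivAt_id φ).const_mul 2
  have h3 := h2.unique ((((Real.hasDerivAt_sin _).comp φ hl).const_mul (cA γ S)).add
    (((Real.hasDerivAt_cos _).comp φ hl).const_mul (cB γ S)))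
  rw [h0] at h3
  linarith

theorem ww_smooth (γ : Ellipse) {S : Plane} (hS : γ.F S < 1) (n : ℕ) :
    ContDiff ℝ ∞ (ww γ S n) := by
  have h := good γ hS n
  have h' := good_succ hS h
  have a1 := h'.sx1
  have a2 := h'.sx2
  have d1 := smooth_deriv a1
  have d2 := smooth_deriv a2
  have hν : ∀ φ, 0 < (γ.normal (ray γ S (n + 1) φ).1).1 ^ 2 +
      (γ.normal (ray γ S (n + 1) φ).1).2 ^ 2 := fun φ => normal_sq_pos γ (F_succ h φ)
  have kn1 : ContDiff ℝ ∞ (fun φ => (γ.normal (ray γ S (n + 1) φ).1).1) := by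
    unfold Ellipse.normal; fun_prop
  have kn2 : ContDiff ℝ ∞ (fun φ => (γ.normal (ray γ S (n + 1) φ).1).2) := by
    unfold Ellipse.normal; fun_prop
  unfold ww
  refine ContDiff.div (by fun_prop) (by fun_prop) (fun φ => (pow_pos (hν φ) 2).ne')

/-- **Key formula**, with smoothness of the weight. -/
theorem DD_eq' (γ : Ellipse) {S : Plane} (hS : γ.F S < 1) (n : ℕ) :
    ∃ W : ℝ → ℝ, ContDiff ℝ ∞ W ∧ (∀ φ, 0 < W φ) ∧
      ∀ φ, DD γ S (n + 1) φ = W φ * deriv (JJ γ S) φ := by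
  induction n with
  | zero =>
    refine ⟨ww γ S 0, ww_smooth γ hS 0, ww_zero_pos hS, fun φ => ?_⟩
    rw [DD_succ hS (good_zero γ hS), DD_zero, zero_add]
  | succ n ih =>
    obtain ⟨W, hs, hW, h⟩ := ih
    refine ⟨fun φ => W φ + ww γ S (n + 1) φ, hs.add (ww_smooth γ hS (n + 1)),
      fun φ => add_pos_of_pos_of_nonneg (hW φ) (ww_nonneg _ _ _ _), fun φ => ?_⟩
    rw [DD_succ hS (good γ hS (n + 1)), h]
    ring

theorem caustic_fun (γ : Ellipse) {S : Plane} (hS : γ.F S < 1) (n : ℕ) :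
    caustic γ S n = fun φ => ![(ray γ S n φ).2.1 * deriv (l3 γ S n) φ -
        l3 γ S n φ * deriv (fun φ => (ray γ S n φ).2.1) φ,
      l3 γ S n φ * deriv (fun φ => -(ray γ S n φ).2.2) φ -
        -(ray γ S n φ).2.2 * deriv (l3 γ S n) φ,
      -(ray γ S n φ).2.2 * deriv (fun φ => (ray γ S n φ).2.1) φ -
        (ray γ S n φ).2.1 * deriv (fun φ => -(ray γ S n φ).2.2) φ] :=
  funext (caustic_eq γ hS n)

theorem caustic_smooth (γ : Ellipse) {S : Plane} (hS : γ.F S < 1) (n : ℕ) :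
    ContDiff ℝ ∞ (caustic γ S n) := by
  have h := good γ hS n
  have b1 := h.su1
  have b2 := h.su2.neg
  have b3 := l3_smooth γ hS n
  have d1 := smooth_deriv b1
  have d2 := smooth_deriv b2
  have d3 := smooth_deriv b3
  rw [caustic_fun γ hS n, contDiff_pi]
  intro i
  fin_cases i
  · exact (b1.mul d3).sub (b3.mul d1)
  · exact (b3.mul d2).sub (b2.mul d3)
  · exact (b2.mul d1).sub (b1.mul d2)

theorem isCusp_iff_DD (γ : Ellipse) {S : Plane} (hS : γ.F S < 1) (n : ℕ) (φ : ℝ) :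
    IsCusp γ S n φ ↔ DD γ S n φ = 0 := by
  have h := good γ hS n
  have h0 : -(ray γ S n φ).2.2 ≠ 0 ∨ (ray γ S n φ).2.1 ≠ 0 := by
    by_contra hh
    push Not at hh
    have := h.unit φ
    rw [hh.2, neg_eq_zero.1 hh.1] at this
    norm_num at this
  exact cusp_iff_D3 (two_le h.su2.neg) (two_le h.su1) (two_le (l3_smooth γ hS n)) φ h0

theorem isCusp_iff (γ : Ellipse) {S : Plane} (hS : γ.F S < 1) {n : ℕ} (hn : 1 ≤ n) (φ : ℝ) :
    IsCusp γ S n φ ↔ cA γ S * Real.sin (2 * φ) + cB γ S * Real.cos (2 * φ) = 0 := by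
  obtain ⟨m, rfl⟩ : ∃ m, n = m + 1 := ⟨n - 1, by omega⟩
  rw [isCusp_iff_DD γ hS]
  obtain ⟨W, -, hW, h⟩ := DD_eq' γ hS m
  rw [h φ, ← JJ_deriv γ hS φ]
  have hJ := JJ_pos γ hS φ
  have hw := hW φ
  constructor
  · intro h1
    rw [(mul_eq_zero.1 h1).resolve_left hw.ne', mul_zero]
  · intro h1
    rw [(mul_eq_zero.1 h1).resolve_left (by positivity), mul_zero]

theorem ordinary (γ : Ellipse) {S : Plane} (hS : γ.F S < 1) (hf : cA γ S ≠ 0 ∨ cB γ S ≠ 0)
    {n : ℕ} (hn : 1 ≤ n) (φ : ℝ) (hc : IsCusp γ S n φ) :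
    LinearIndependent ℝ ![caustic γ S n φ, deriv (deriv (caustic γ S n)) φ,
      deriv (deriv (deriv (caustic γ S n))) φ] := by
  have h1 := (isCusp_iff_DD γ hS n φ).1 hc
  have h2 := (isCusp_iff γ hS hn φ).1 hc
  obtain ⟨m, rfl⟩ : ∃ m, n = m + 1 := ⟨n - 1, by omega⟩
  obtain ⟨W, hs, hW, h⟩ := DD_eq' γ hS m
  have g := good γ hS (m + 1)
  have hJ := JJ_pos γ hS φ
  have hJ0 : deriv (JJ γ S) φ = 0 := by
    rw [← JJ_deriv γ hS φ] at h2
    exact (mul_eq_zero.1 h2).resolve_left (by positivity)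
  have hJ1 := JJ_deriv2 γ hS φ hJ0
  have hne : deriv (DD γ S (m + 1)) φ ≠ 0 := by
    have e : DD γ S (m + 1) = fun φ => W φ * deriv (JJ γ S) φ := funext h
    rw [e]
    have e2 : deriv (fun φ => W φ * deriv (JJ γ S) φ) φ =
        deriv W φ * deriv (JJ γ S) φ + W φ * deriv (deriv (JJ γ S)) φ :=
      ((diff_of hs φ).mul (diff_of (smooth_deriv (JJ_smooth γ hS)) φ)).deriv
    rw [e2, hJ0, mul_zero, zero_add]
    apply mul_ne_zero (hW φ).ne'
    intro h3
    rw [h3, mul_zero] at hJ1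
    have h4 : cA γ S * Real.cos (2 * φ) - cB γ S * Real.sin (2 * φ) = 0 := by linarith
    have h5 := Real.sin_sq_add_cos_sq (2 * φ)
    have h6 : cA γ S ^ 2 + cB γ S ^ 2 = 0 := by
      linear_combination (-(cA γ S ^ 2 + cB γ S ^ 2)) * h5 +
        (cA γ S * Real.cos (2 * φ) - cB γ S * Real.sin (2 * φ)) * h4 +
        (cA γ S * Real.sin (2 * φ) + cB γ S * Real.cos (2 * φ)) * h2
    rcases hf with hf | hf
    · have : 0 < cA γ S ^ 2 := by positivity
      nlinarith [sq_nonneg (cB γ S)]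
    · have : 0 < cB γ S ^ 2 := by positivity
      nlinarith [sq_nonneg (cA γ S)]
  exact semi_det g.su2.neg g.su1 (l3_smooth γ hS (m + 1)) φ h1 hne (caustic_fun γ hS (m + 1))

theorem four (γ : Ellipse) {S : Plane} (hS : γ.F S < 1) (hf : cA γ S ≠ 0 ∨ cB γ S ≠ 0)
    {n : ℕ} (hn : 1 ≤ n) :
    {φ | φ ∈ Set.Ico 0 (2 * Real.pi) ∧ IsCusp γ S n φ}.encard = 4 := by
  have : {φ | φ ∈ Set.Ico 0 (2 * Real.pi) ∧ IsCusp γ S n φ} =
      {φ : ℝ | φ ∈ Set.Ico 0 (2 * Real.pi) ∧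
        cA γ S * Real.sin (2 * φ) + cB γ S * Real.cos (2 * φ) = 0} := by
    ext φ
    simp only [Set.mem_ofPred_eq, isCusp_iff γ hS hn]
  rw [this]
  exact four_zeros _ _ hf

theorem ray_periodic (γ : Ellipse) (S : Plane) (n : ℕ) (φ : ℝ) :
    ray γ S n (φ + 2 * Real.pi) = ray γ S n φ := by
  induction n with
  | zero => simp only [ray, Real.cos_add_two_pi, Real.sin_add_two_pi]
  | succ n ih => simp only [ray, ih]

theorem caustic_periodic (γ : Ellipse) (S : Plane) (n : ℕ) (φ : ℝ) :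
    caustic γ S n (φ + 2 * Real.pi) = caustic γ S n φ := by
  have h : (fun t => line γ S n (t + 2 * Real.pi)) = line γ S n := by
    funext t; simp only [line, ray_periodic]
  have h2 : deriv (line γ S n) (φ + 2 * Real.pi) = deriv (line γ S n) φ := by
    conv_rhs => rw [← h]
    rw [deriv_comp_add_const]
  unfold caustic
  rw [h2, congrFun h φ]

end Pool.Agent.Helper19.Caustic
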