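import Pool.Agent.Helper19.Caustic.Jets

set_option autoImplicit false

namespace Pool.Agent.Helper19.Caustic


/-- TARGET: a nonzero combination of `sin 2φ` and `cos 2φ` has exactly four zeros in a period. -/
theorem four_zeros (a b : ℝ) (h : a ≠ 0 ∨ b ≠ 0) :
    {φ : ℝ | φ ∈ Set.Ico 0 (2 * Real.pi) ∧
      a * Real.sin (2 * φ) + b * Real.cos (2 * φ) = 0}.encard = 4 := by
  have hpi := Real.pi_pos
  set z : ℂ := ⟨a, b⟩ with hz
  have hz0 : z ≠ 0 := by
    intro h0
    have h1 := congrArg Complex.re h0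
    have h2 := congrArg Complex.im h0
    simp [hz] at h1 h2
    rcases h with h | h
    · exact h h1
    · exact h h2
  set R : ℝ := ‖z‖ with hR
  set d : ℝ := Complex.arg z with hd
  have hR0 : R ≠ 0 := norm_ne_zero_iff.2 hz0
  have ha : a = R * Real.cos d := by
    exact (Complex.norm_mul_cos_arg z).symm
  have hb : b = R * Real.sin d := by
    exact (Complex.norm_mul_sin_arg z).symm
  set m : ℤ := ⌈d / Real.pi⌉ with hm
  have hS : {φ : ℝ | φ ∈ Set.Ico 0 (2 * Real.pi) ∧
      a * Real.sin (2 * φ) + b * Real.cos (2 * φ) = 0} =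
      (fun k : ℤ => ((k : ℝ) * Real.pi - d) / 2) '' ((Finset.Icc m (m + 3) : Finset ℤ) : Set ℤ) := by
    ext φ
    simp only [Set.mem_ofPred_eq, Set.mem_Ico, Set.mem_image, Finset.coe_Icc, Set.mem_Icc]
    have hkey : a * Real.sin (2 * φ) + b * Real.cos (2 * φ) = R * Real.sin (2 * φ + d) := by
      rw [Real.sin_add, ha, hb]
      ring
    rw [hkey]
    constructor
    · rintro ⟨⟨h1, h2⟩, h3⟩
      have h4 : Real.sin (2 * φ + d) = 0 := (mul_eq_zero.1 h3).resolve_left hR0
      obtain ⟨k, hk⟩ := Real.sin_eq_zero_iff.1 h4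
      refine ⟨k, ⟨?_, ?_⟩, by rw [hk]; ring⟩
      · rw [hm, Int.ceil_le, div_le_iff₀ hpi]
        linarith
      · have h5 : (k : ℝ) < m + 4 := by
          have h6 : d / Real.pi ≤ m := Int.le_ceil _
          have h7 : d ≤ m * Real.pi := (div_le_iff₀ hpi).1 h6
          have h8 : (k : ℝ) * Real.pi < (m + 4) * Real.pi := by
            rw [hk]
            linarith
          exact lt_of_mul_lt_mul_right h8 hpi.le
        have h9 : k < m + 4 := by exact_mod_cast h5
        omega
    · rintro ⟨k, ⟨h1, h2⟩, rfl⟩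
      have h3 : d ≤ k * Real.pi := by
        have h4 : d / Real.pi ≤ m := Int.le_ceil _
        have h5 : (m : ℝ) ≤ k := by exact_mod_cast h1
        exact (div_le_iff₀ hpi).1 (h4.trans h5)
      have h4 : (k : ℝ) * Real.pi < d + 4 * Real.pi := by
        have h5 : (m : ℝ) < d / Real.pi + 1 := Int.ceil_lt_add_one _
        have h6 : (k : ℝ) ≤ m + 3 := by exact_mod_cast h2
        have h7 : (k : ℝ) < d / Real.pi + 4 := by linarith
        have h8 := mul_lt_mul_of_pos_right h7 hpi
        rw [add_mul, div_mul_cancel₀ _ hpi.ne'] at h8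
        exact h8
      refine ⟨⟨by linarith, by linarith⟩, ?_⟩
      have h5 : 2 * (((k : ℝ) * Real.pi - d) / 2) + d = k * Real.pi := by ring
      rw [h5, Real.sin_int_mul_pi, mul_zero]
  rw [hS, Set.InjOn.encard_image, Set.encard_coe_eq_coe_finsetCard, Int.card_Icc]
  · have : (m + 3 + 1 - m).toNat = 4 := by
      have : m + 3 + 1 - m = 4 := by ring
      rw [this]
      rfl
    rw [this]
    rfl
  · intro k _ l _ hkl
    simp only at hkl
    have h1 : ((k : ℝ) - l) * Real.pi = 0 := by linarith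
    have h2 := (mul_eq_zero.1 h1).resolve_right hpi.ne'
    have h3 : (k : ℝ) = l := sub_eq_zero.1 h2
    exact_mod_cast h3



theorem sq_finite (A B : ℝ) : {u : ℝ × ℝ | u.1 ^ 2 = A ∧ u.2 ^ 2 = B}.Finite := by
  have h1 : ∀ C : ℝ, {x : ℝ | x ^ 2 = C}.Finite := by
    intro C
    apply Set.Finite.subset (Set.toFinite {Real.sqrt C, -Real.sqrt C})
    intro x hx
    have hx' : x ^ 2 = C := hx
    have hC : 0 ≤ C := by rw [← hx']; positivity
    have h2 : x ^ 2 = (Real.sqrt C) ^ 2 := by rw [Real.sq_sqrt hC, hx']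
    rcases sq_eq_sq_iff_eq_or_eq_neg.mp h2 with h | h
    · left; exact h
    · right; exact h
  apply Set.Finite.subset ((h1 A).prod (h1 B))
  rintro ⟨x, y⟩ ⟨h2, h3⟩
  exact ⟨h2, h3⟩

/-- TARGET: the exceptional set (the foci) is finite. `(x, y)` are coordinates relative to the centre. -/
theorem exceptional_finite (p q r c1 c2 : ℝ) (hp : 0 < p) (hd : 0 < p * r - q ^ 2) :
    {X : ℝ × ℝ |
      p * (X.1 - c1) ^ 2 + 2 * q * (X.1 - c1) * (X.2 - c2) + r * (X.2 - c2) ^ 2 < 1 ∧
      (p * (X.1 - c1) + q * (X.2 - c2)) * (q * (X.1 - c1) + r * (X.2 - c2)) +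
        (1 - (p * (X.1 - c1) ^ 2 + 2 * q * (X.1 - c1) * (X.2 - c2) + r * (X.2 - c2) ^ 2)) * q = 0 ∧
      (p * (X.1 - c1) + q * (X.2 - c2)) ^ 2 - (q * (X.1 - c1) + r * (X.2 - c2)) ^ 2 +
        (1 - (p * (X.1 - c1) ^ 2 + 2 * q * (X.1 - c1) * (X.2 - c2) + r * (X.2 - c2) ^ 2)) *
          (p - r) = 0}.Finite := by
  have hr : 0 < r := by
    by_contra h
    push Not at h
    nlinarith [sq_nonneg q, mul_nonneg hp.le (neg_nonneg.mpr h)]
  set S : ℝ := Real.sqrt ((p - r) ^ 2 + 4 * q ^ 2) with hS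
  have hS0 : 0 ≤ S := Real.sqrt_nonneg _
  have hS2 : S ^ 2 = (p - r) ^ 2 + 4 * q ^ 2 := Real.sq_sqrt (by positivity)
  set d : ℝ := p * r - q ^ 2 with hdd
  set T : ℝ := ((p + r) * S + (p - r) ^ 2 + 4 * q ^ 2) / 2 with hT
  have hT0 : 0 ≤ T := by rw [hT]; positivity
  have hdT : 0 < d + T := by linarith
  let f : ℝ × ℝ → ℝ × ℝ := fun X =>
    (p * (X.1 - c1) + q * (X.2 - c2), q * (X.1 - c1) + r * (X.2 - c2))
  have hf : Function.Injective f := by
    rintro ⟨x, y⟩ ⟨x', y'⟩ h
    have h1 : p * (x - c1) + q * (y - c2) = p * (x' - c1) + q * (y' - c2) :=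
      congrArg Prod.fst h
    have h2 : q * (x - c1) + r * (y - c2) = q * (x' - c1) + r * (y' - c2) :=
      congrArg Prod.snd h
    have h3 : d * x = d * x' := by rw [hdd]; linear_combination r * h1 - q * h2
    have h4 : d * y = d * y' := by rw [hdd]; linear_combination p * h2 - q * h1
    have h5 := mul_left_cancel₀ hd.ne' h3
    have h6 := mul_left_cancel₀ hd.ne' h4
    rw [h5, h6]
  apply Set.Finite.subset ((sq_finite (d / (d + T) * (S - (p - r)) / 2)
    (d / (d + T) * (S + (p - r)) / 2)).preimage hf.injOn)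
  rintro ⟨X1, X2⟩ ⟨h1, h2, h3⟩
  simp only at h1 h2 h3
  set x := X1 - c1 with hx
  set y := X2 - c2 with hy
  set m1 := p * x + q * y with hm1
  set m2 := q * x + r * y with hm2
  set k := 1 - (p * x ^ 2 + 2 * q * x * y + r * y ^ 2) with hk
  have hk0 : 0 < k := by rw [hk]; linarith
  have hsum : m1 ^ 2 + m2 ^ 2 = k * S := by
    have e : (m1 ^ 2 + m2 ^ 2) ^ 2 = (k * S) ^ 2 := by
      have e1 : m1 * m2 = -(k * q) := by linarith
      have e2 : m1 ^ 2 - m2 ^ 2 = -(k * (p - r)) := by linarith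
      calc (m1 ^ 2 + m2 ^ 2) ^ 2 = (m1 ^ 2 - m2 ^ 2) ^ 2 + 4 * (m1 * m2) ^ 2 := by ring
        _ = k ^ 2 * ((p - r) ^ 2 + 4 * q ^ 2) := by rw [e1, e2]; ring
        _ = (k * S) ^ 2 := by rw [mul_pow, hS2]
    exact (sq_eq_sq₀ (by positivity) (by positivity)).mp e
  have hfd : (1 - k) * d = r * m1 ^ 2 - 2 * q * (m1 * m2) + p * m2 ^ 2 := by
    rw [hk, hm1, hm2, hdd]; ring
  have hkd : k * (d + T) = d := by
    have e1 : m1 * m2 = -(k * q) := by linarith
    have e2 : m1 ^ 2 = (k * S - k * (p - r)) / 2 := by linarith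
    have e3 : m2 ^ 2 = (k * S + k * (p - r)) / 2 := by linarith
    rw [e1, e2, e3] at hfd
    rw [hT]
    linear_combination -hfd
  have hkv : k = d / (d + T) := by rw [eq_div_iff hdT.ne']; exact hkd
  show m1 ^ 2 = _ ∧ m2 ^ 2 = _
  rw [← hkv]
  constructor
  · linarith
  · linarith



theorem vec_hasDerivAt {a b c : ℝ → ℝ} {a' b' c' t : ℝ} (ha : HasDerivAt a a' t)
    (hb : HasDerivAt b b' t) (hc : HasDerivAt c c' t) :
    HasDerivAt (fun t => ![a t, b t, c t]) ![a', b', c'] t := by
  rw [hasDerivAt_pi]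
  intro i
  fin_cases i
  · simpa using ha
  · simpa using hb
  · simpa using hc

/-- TARGET 3: the contact point in coordinates. -/
theorem cross_deriv {a b c : ℝ → ℝ} (ha : Differentiable ℝ a) (hb : Differentiable ℝ b)
    (hc : Differentiable ℝ c) (t : ℝ) :
    crossProduct ((fun t => ![a t, b t, c t]) t) (deriv (fun t => ![a t, b t, c t]) t) =
      ![b t * deriv c t - c t * deriv b t, c t * deriv a t - a t * deriv c t,
        a t * deriv b t - b t * deriv a t] := by
  rw [(vec_hasDerivAt (ha t).hasDerivAt (hb t).hasDerivAt (hc t).hasDerivAt).deriv, cross_apply]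
  simp

theorem vec3_eq_zero {x y z : ℝ} : (![x, y, z] : Fin 3 → ℝ) = 0 ↔ x = 0 ∧ y = 0 ∧ z = 0 := by
  constructor
  · intro h
    have h0 := congrFun h 0
    have h1 := congrFun h 1
    have h2 := congrFun h 2
    simp at h0 h1 h2
    exact ⟨h0, h1, h2⟩
  · rintro ⟨rfl, rfl, rfl⟩
    ext i; fin_cases i <;> rfl

/-- TARGET 1: the derivative of the contact point is parallel to the contact point iff the
determinant vanishes. -/
theorem cusp_iff_D3 {a b c : ℝ → ℝ} (ha : ContDiff ℝ 2 a) (hb : ContDiff ℝ 2 b)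
    (hc : ContDiff ℝ 2 c) (t : ℝ) (h0 : a t ≠ 0 ∨ b t ≠ 0) :
    (¬ LinearIndependent ℝ ![crossProduct ((fun t => ![a t, b t, c t]) t)
        (deriv (fun t => ![a t, b t, c t]) t),
      deriv (fun t => crossProduct ((fun t => ![a t, b t, c t]) t)
        (deriv (fun t => ![a t, b t, c t]) t)) t]) ↔ D3 a b c t = 0 := by
  have ha1 : Differentiable ℝ a := ha.differentiable (by norm_num)
  have hb1 : Differentiable ℝ b := hb.differentiable (by norm_num)
  have hc1 : Differentiable ℝ c := hc.differentiable (by norm_num)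
  have key : ∀ f : ℝ → ℝ, ContDiff ℝ 2 f → Differentiable ℝ (deriv f) := by
    intro f hf
    have h : ContDiff ℝ (1 + 1) f := by
      have : (1 + 1 : WithTop ℕ∞) = 2 := by norm_num
      rw [this]; exact hf
    exact (contDiff_succ_iff_deriv.1 h).2.2.differentiable (by norm_num)
  have ha2 := key a ha
  have hb2 := key b hb
  have hc2 := key c hc
  have hfun : (fun t => crossProduct ((fun t => ![a t, b t, c t]) t)
        (deriv (fun t => ![a t, b t, c t]) t)) =
      fun t => ![b t * deriv c t - c t * deriv b t, c t * deriv a t - a t * deriv c t,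
        a t * deriv b t - b t * deriv a t] := by
    funext s
    exact cross_deriv ha1 hb1 hc1 s
  have hd : ∀ f g : ℝ → ℝ, Differentiable ℝ f → Differentiable ℝ g →
      Differentiable ℝ (deriv f) → Differentiable ℝ (deriv g) →
      HasDerivAt (fun t => f t * deriv g t - g t * deriv f t)
        (f t * deriv (deriv g) t - g t * deriv (deriv f) t) t := by
    intro f g hf hg hf2 hg2
    have h := ((hf t).hasDerivAt.mul (hg2 t).hasDerivAt).sub
      ((hg t).hasDerivAt.mul (hf2 t).hasDerivAt)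
    have e : deriv f t * deriv g t + f t * deriv (deriv g) t -
        (deriv g t * deriv f t + g t * deriv (deriv f) t) =
        f t * deriv (deriv g) t - g t * deriv (deriv f) t := by ring
    rw [e] at h
    exact h
  rw [cross_deriv ha1 hb1 hc1 t, hfun,
    (vec_hasDerivAt (hd b c hb1 hc1 hb2 hc2) (hd c a hc1 ha1 hc2 ha2)
      (hd a b ha1 hb1 ha2 hb2)).deriv, ← crossProduct_ne_zero_iff_linearIndependent, not_not,
      cross_apply]
  simp only [Matrix.cons_val_zero, Matrix.cons_val_one, Matrix.cons_val]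
  rw [vec3_eq_zero]
  constructor
  · rintro ⟨h1, h2, h3⟩
    have e1 : a t * D3 a b c t = 0 := by
      rw [← h1]; unfold D3; ring
    have e2 : b t * D3 a b c t = 0 := by
      rw [← h2]; unfold D3; ring
    rcases h0 with h0 | h0
    · exact (mul_eq_zero.1 e1).resolve_left h0
    · exact (mul_eq_zero.1 e2).resolve_left h0
  · intro h
    refine ⟨?_, ?_, ?_⟩
    · have : a t * D3 a b c t = 0 := by rw [h, mul_zero]
      rw [← this]; unfold D3; ring
    · have : b t * D3 a b c t = 0 := by rw [h, mul_zero]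
      rw [← this]; unfold D3; ring
    · have : c t * D3 a b c t = 0 := by rw [h, mul_zero]
      rw [← this]; unfold D3; ring

/-- TARGET 2: where the third coordinate is not zero, the affine point has zero derivative iff the
homogeneous coordinate vector is parallel to its derivative. -/
theorem cusp_iff_affine {E : ℝ → Fin 3 → ℝ} {t : ℝ} (hE : DifferentiableAt ℝ E t)
    (h0 : E t 2 ≠ 0) :
    (¬ LinearIndependent ℝ ![E t, deriv E t]) ↔
      deriv (fun s => ((E s 0 / E s 2, E s 1 / E s 2) : ℝ × ℝ)) t = 0 := by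
  have hd := hasDerivAt_pi.1 hE.hasDerivAt
  have h1 := ((hd 0).div (hd 2) h0).prodMk ((hd 1).div (hd 2) h0)
  have h1' : HasDerivAt (fun s => ((E s 0 / E s 2, E s 1 / E s 2) : ℝ × ℝ))
    ((deriv E t 0 * E t 2 - E t 0 * deriv E t 2) / E t 2 ^ 2,
      (deriv E t 1 * E t 2 - E t 1 * deriv E t 2) / E t 2 ^ 2) t := h1
  rw [h1'.deriv, ← crossProduct_ne_zero_iff_linearIndependent, not_not, cross_apply, vec3_eq_zero,
    Prod.mk_eq_zero, div_eq_zero_iff, div_eq_zero_iff]
  have h2 : E t 2 ^ 2 ≠ 0 := pow_ne_zero 2 h0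
  simp only [h2, or_false]
  constructor
  · rintro ⟨e1, e2, e3⟩
    constructor
    · linarith
    · linarith
  · rintro ⟨e1, e2⟩
    refine ⟨by linarith, by linarith, ?_⟩
    have : E t 2 * (E t 0 * deriv E t 1 - E t 1 * deriv E t 0) = 0 := by
      linear_combination E t 0 * e2 - E t 1 * e1
    exact (mul_eq_zero.1 this).resolve_left h0

end Pool.Agent.Helper19.Caustic
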