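import Pool.Agent.Helper19.Caustic.Det
import Pool.Agent.Helper19.Caustic.Tools

set_option autoImplicit false

namespace Pool.Agent.Helper19.Caustic

open scoped ContDiff

/-- third coordinate of the line -/
noncomputable def l3 (γ : Ellipse) (S : Plane) (n : ℕ) (φ : ℝ) : ℝ :=
  (ray γ S n φ).2.2 * (ray γ S n φ).1.1 - (ray γ S n φ).2.1 * (ray γ S n φ).1.2

/-- the line is stationary -/
def Van (γ : Ellipse) (S : Plane) (n : ℕ) (φ : ℝ) : Prop :=
  deriv (fun φ => (ray γ S n φ).2.1) φ = 0 ∧ deriv (fun φ => (ray γ S n φ).2.2) φ = 0 ∧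
    deriv (l3 γ S n) φ = 0

theorem diff_of {f : ℝ → ℝ} (hf : ContDiff ℝ ∞ f) (φ : ℝ) : HasDerivAt f (deriv f φ) φ :=
  (cd_diff (two_le hf) φ).hasDerivAt

theorem tangent_succ {γ : Ellipse} {S : Plane} (hS : γ.F S < 1) {n : ℕ} (h : Good γ S n) (φ : ℝ) :
    (γ.normal (ray γ S (n + 1) φ).1).1 * deriv (fun φ => (ray γ S (n + 1) φ).1.1) φ +
      (γ.normal (ray γ S (n + 1) φ).1).2 * deriv (fun φ => (ray γ S (n + 1) φ).1.2) φ = 0 := by
  have h' := good_succ hS h
  have a1 := (diff_of h'.sx1 φ).sub_const γ.centre.1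
  have a2 := (diff_of h'.sx2 φ).sub_const γ.centre.2
  have h1 : (fun t => γ.p * (((ray γ S (n + 1) t).1.1 - γ.centre.1) *
      ((ray γ S (n + 1) t).1.1 - γ.centre.1)) + 2 * γ.q *
      (((ray γ S (n + 1) t).1.1 - γ.centre.1) * ((ray γ S (n + 1) t).1.2 - γ.centre.2)) +
      γ.r * (((ray γ S (n + 1) t).1.2 - γ.centre.2) * ((ray γ S (n + 1) t).1.2 - γ.centre.2))) =
      fun _ => (1 : ℝ) := by
    funext t
    have := F_succ h t
    simp only [Ellipse.F] at this
    linarith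
  have h2 := (((a1.mul a1).const_mul γ.p).add ((a1.mul a2).const_mul (2 * γ.q))).add
    ((a2.mul a2).const_mul γ.r)
  have h3 := (h2.congr_of_eventuallyEq (f₁ := fun _ => (1 : ℝ)) (by
    rw [← h1]; exact Filter.Eventually.of_forall (fun t => rfl))).unique (hasDerivAt_const φ (1 : ℝ))
  simp only [Ellipse.normal]
  linarith

theorem reflect_reflect {u N : Plane} (hN : 0 < N.1 ^ 2 + N.2 ^ 2) :
    reflect (reflect u N) N = u := by
  have h : N.1 * N.1 + N.2 * N.2 ≠ 0 := by nlinarith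
  ext
  · simp only [reflect, dot, Prod.fst_sub, Prod.snd_sub, Prod.smul_fst, Prod.smul_snd, smul_eq_mul]
    field_simp
    ring
  · simp only [reflect, dot, Prod.fst_sub, Prod.snd_sub, Prod.smul_fst, Prod.smul_snd, smul_eq_mul]
    field_simp
    ring

theorem van_step {γ : Ellipse} {S : Plane} (hS : γ.F S < 1) {n : ℕ} (h : Good γ S n) {φ : ℝ}
    (hv : Van γ S (n + 1) φ) : Van γ S n φ := by
  have h' := good_succ hS h
  obtain ⟨v1, v2, v3⟩ := hv
  have a1 := diff_of h'.sx1 φ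
  have a2 := diff_of h'.sx2 φ
  have b1 := diff_of h'.su1 φ
  have b2 := diff_of h'.su2 φ
  have hν := normal_sq_pos γ (F_succ h φ)
  -- the point is stationary
  have e3 : deriv (l3 γ S (n + 1)) φ =
      (ray γ S (n + 1) φ).2.2 * deriv (fun φ => (ray γ S (n + 1) φ).1.1) φ -
      (ray γ S (n + 1) φ).2.1 * deriv (fun φ => (ray γ S (n + 1) φ).1.2) φ := by
    have := (b2.mul a1).sub (b1.mul a2)
    rw [v1, v2] at this
    have h2 := HasDerivAt.deriv this
    rw [show l3 γ S (n + 1) = (fun φ => (ray γ S (n + 1) φ).2.2) * (fun φ => (ray γ S (n + 1) φ).1.1) -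
      (fun φ => (ray γ S (n + 1) φ).2.1) * (fun φ => (ray γ S (n + 1) φ).1.2) from rfl, h2]
    ring
  rw [v3] at e3
  have e4 := tangent_succ hS h φ
  have e5 : dot (ray γ S (n + 1) φ).2 (γ.normal (ray γ S (n + 1) φ).1) = -JJ γ S φ := by
    rw [ray_succ_snd, dot_reflect hν, dot_succ h φ]
  have hJ := JJ_pos γ hS φ
  have x1 : deriv (fun φ => (ray γ S (n + 1) φ).1.1) φ = 0 := by
    have : JJ γ S φ * deriv (fun φ => (ray γ S (n + 1) φ).1.1) φ = 0 := by
      have h1 : JJ γ S φ = -((ray γ S (n + 1) φ).2.1 * (γ.normal (ray γ S (n + 1) φ).1).1 +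
        (ray γ S (n + 1) φ).2.2 * (γ.normal (ray γ S (n + 1) φ).1).2) := by
        rw [← neg_eq_iff_eq_neg, ← e5]; rfl
      rw [h1]
      linear_combination (γ.normal (ray γ S (n + 1) φ).1).2 * e3 -
        (ray γ S (n + 1) φ).2.1 * e4
    exact (mul_eq_zero.1 this).resolve_left hJ.ne'
  have x2 : deriv (fun φ => (ray γ S (n + 1) φ).1.2) φ = 0 := by
    have : JJ γ S φ * deriv (fun φ => (ray γ S (n + 1) φ).1.2) φ = 0 := by
      have h1 : JJ γ S φ = -((ray γ S (n + 1) φ).2.1 * (γ.normal (ray γ S (n + 1) φ).1).1 +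
        (ray γ S (n + 1) φ).2.2 * (γ.normal (ray γ S (n + 1) φ).1).2) := by
        rw [← neg_eq_iff_eq_neg, ← e5]; rfl
      rw [h1]
      linear_combination -(γ.normal (ray γ S (n + 1) φ).1).1 * e3 -
        (ray γ S (n + 1) φ).2.2 * e4
    exact (mul_eq_zero.1 this).resolve_left hJ.ne'
  rw [x1] at a1
  rw [x2] at a2
  rw [v1] at b1
  rw [v2] at b2
  -- the normal is stationary
  have n1 : HasDerivAt (fun φ => (γ.normal (ray γ S (n + 1) φ).1).1) 0 φ := by
    exact HasDerivAt.congr_deriv (((a1.sub_const γ.centre.1).const_mul γ.p).add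
      ((a2.sub_const γ.centre.2).const_mul γ.q)) (by ring)
  have n2 : HasDerivAt (fun φ => (γ.normal (ray γ S (n + 1) φ).1).2) 0 φ := by
    exact HasDerivAt.congr_deriv (((a1.sub_const γ.centre.1).const_mul γ.q).add
      ((a2.sub_const γ.centre.2).const_mul γ.r)) (by ring)
  have hν' : (γ.normal (ray γ S (n + 1) φ).1).1 * (γ.normal (ray γ S (n + 1) φ).1).1 +
      (γ.normal (ray γ S (n + 1) φ).1).2 * (γ.normal (ray γ S (n + 1) φ).1).2 ≠ 0 := by
    nlinarith
  have hq : HasDerivAt (fun φ => 2 * dot (ray γ S (n + 1) φ).2 (γ.normal (ray γ S (n + 1) φ).1) /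
      dot (γ.normal (ray γ S (n + 1) φ).1) (γ.normal (ray γ S (n + 1) φ).1)) 0 φ := by
    exact HasDerivAt.congr_deriv ((((b1.mul n1).add (b2.mul n2)).const_mul 2).div
      ((n1.mul n1).add (n2.mul n2)) hν') (by ring)
  have hu : ∀ t, (ray γ S n t).2 =
      reflect (ray γ S (n + 1) t).2 (γ.normal (ray γ S (n + 1) t).1) := by
    intro t
    rw [ray_succ_snd, reflect_reflect (normal_sq_pos γ (F_succ h t))]
  have u1 : HasDerivAt (fun t => (ray γ S n t).2.1) 0 φ := by
    have e : (fun t => (ray γ S n t).2.1) = fun t => (ray γ S (n + 1) t).2.1 -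
        (2 * dot (ray γ S (n + 1) t).2 (γ.normal (ray γ S (n + 1) t).1) /
      dot (γ.normal (ray γ S (n + 1) t).1) (γ.normal (ray γ S (n + 1) t).1)) *
        (γ.normal (ray γ S (n + 1) t).1).1 := by
      funext t; rw [hu t]; rfl
    rw [e]
    exact HasDerivAt.congr_deriv (b1.sub (hq.mul n1)) (by ring)
  have u2 : HasDerivAt (fun t => (ray γ S n t).2.2) 0 φ := by
    have e : (fun t => (ray γ S n t).2.2) = fun t => (ray γ S (n + 1) t).2.2 -
        (2 * dot (ray γ S (n + 1) t).2 (γ.normal (ray γ S (n + 1) t).1) /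
      dot (γ.normal (ray γ S (n + 1) t).1) (γ.normal (ray γ S (n + 1) t).1)) *
        (γ.normal (ray γ S (n + 1) t).1).2 := by
      funext t; rw [hu t]; rfl
    rw [e]
    exact HasDerivAt.congr_deriv (b2.sub (hq.mul n2)) (by ring)
  refine ⟨u1.deriv, u2.deriv, ?_⟩
  have e : l3 γ S n = fun t => (ray γ S n t).2.2 * (ray γ S (n + 1) t).1.1 -
      (ray γ S n t).2.1 * (ray γ S (n + 1) t).1.2 := by
    funext t
    unfold l3
    simp only [ray_succ_fst h t, Prod.fst_add, Prod.snd_add, Prod.smul_fst, Prod.smul_snd,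
      smul_eq_mul]
    ring
  rw [e]
  have h5 : HasDerivAt (fun t => (ray γ S n t).2.2 * (ray γ S (n + 1) t).1.1 -
      (ray γ S n t).2.1 * (ray γ S (n + 1) t).1.2) 0 φ :=
    HasDerivAt.congr_deriv ((u2.mul a1).sub (u1.mul a2)) (by ring)
  exact h5.deriv

theorem not_van (γ : Ellipse) {S : Plane} (hS : γ.F S < 1) (n : ℕ) (φ : ℝ) : ¬ Van γ S n φ := by
  induction n with
  | zero =>
    rintro ⟨h1, h2, -⟩
    have e1 : deriv (fun φ => (ray γ S 0 φ).2.1) φ = -Real.sin φ := (Real.hasDerivAt_cos φ).deriv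
    have e2 : deriv (fun φ => (ray γ S 0 φ).2.2) φ = Real.cos φ := (Real.hasDerivAt_sin φ).deriv
    rw [e1] at h1
    rw [e2] at h2
    have := Real.sin_sq_add_cos_sq φ
    rw [h2, neg_eq_zero.1 h1] at this
    norm_num at this
  | succ n ih => exact fun h => ih (van_step hS (good γ hS n) h)

theorem line_eq (γ : Ellipse) (S : Plane) (n : ℕ) :
    line γ S n = fun φ => ![-(ray γ S n φ).2.2, (ray γ S n φ).2.1, l3 γ S n φ] := rfl

theorem l3_smooth (γ : Ellipse) {S : Plane} (hS : γ.F S < 1) (n : ℕ) :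
    ContDiff ℝ ∞ (l3 γ S n) := by
  have h := good γ hS n
  have a1 := h.sx1
  have a2 := h.sx2
  have b1 := h.su1
  have b2 := h.su2
  unfold l3
  fun_prop

theorem caustic_eq (γ : Ellipse) {S : Plane} (hS : γ.F S < 1) (n : ℕ) (φ : ℝ) :
    caustic γ S n φ = ![(ray γ S n φ).2.1 * deriv (l3 γ S n) φ -
        l3 γ S n φ * deriv (fun φ => (ray γ S n φ).2.1) φ,
      l3 γ S n φ * deriv (fun φ => -(ray γ S n φ).2.2) φ -
        -(ray γ S n φ).2.2 * deriv (l3 γ S n) φ,
      -(ray γ S n φ).2.2 * deriv (fun φ => (ray γ S n φ).2.1) φ -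
        (ray γ S n φ).2.1 * deriv (fun φ => -(ray γ S n φ).2.2) φ] := by
  have h := good γ hS n
  unfold caustic
  rw [line_eq]
  exact cross_deriv (cd_diff (two_le h.su2.neg)) (cd_diff (two_le h.su1))
    (cd_diff (two_le (l3_smooth γ hS n))) φ

theorem caustic_ne_zero (γ : Ellipse) {S : Plane} (hS : γ.F S < 1) (n : ℕ) (φ : ℝ) :
    caustic γ S n φ ≠ 0 := by
  have h := good γ hS n
  intro h0
  apply not_van γ hS n φ
  rw [caustic_eq γ hS n φ, vec3_eq_zero] at h0
  obtain ⟨e1, e2, e3⟩ := h0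
  have hneg : deriv (fun φ => -(ray γ S n φ).2.2) φ = -deriv (fun φ => (ray γ S n φ).2.2) φ :=
    deriv.fun_neg
  rw [hneg] at e2 e3
  have hu := h.unit φ
  have hu' : (ray γ S n φ).2.1 * deriv (fun φ => (ray γ S n φ).2.1) φ +
      (ray γ S n φ).2.2 * deriv (fun φ => (ray γ S n φ).2.2) φ = 0 := by
    have b1 := diff_of h.su1 φ
    have b2 := diff_of h.su2 φ
    have h1 := (b1.mul b1).add (b2.mul b2)
    have h2 := (h1.congr_of_eventuallyEq (f₁ := fun _ => (1 : ℝ))
      (Filter.Eventually.of_forall (fun t => by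
        have := h.unit t
        simp only [Pi.add_apply, Pi.mul_apply]
        linarith))).unique (hasDerivAt_const φ (1 : ℝ))
    linarith
  have g1 : deriv (fun φ => (ray γ S n φ).2.1) φ = 0 := by
    linear_combination (-deriv (fun φ => (ray γ S n φ).2.1) φ) * hu +
      (ray γ S n φ).2.1 * hu' - (ray γ S n φ).2.2 * e3
  have g2 : deriv (fun φ => (ray γ S n φ).2.2) φ = 0 := by
    linear_combination (-deriv (fun φ => (ray γ S n φ).2.2) φ) * hu +
      (ray γ S n φ).2.2 * hu' + (ray γ S n φ).2.1 * e3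
  refine ⟨g1, g2, ?_⟩
  rw [g1] at e1
  rw [g2] at e2
  linear_combination (-deriv (l3 γ S n) φ) * hu + (ray γ S n φ).2.1 * e1 +
    (ray γ S n φ).2.2 * e2

end Pool.Agent.Helper19.Caustic
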