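import Pool.Agent.Helper19.Caustic.NonZero

set_option autoImplicit false

namespace Pool.Agent.Helper19.Caustic

open scoped ContDiff

theorem smooth_deriv {f : ℝ → ℝ} (hf : ContDiff ℝ ∞ f) : ContDiff ℝ ∞ (deriv f) :=
  (contDiff_infty_iff_deriv.1 hf).2

/-- the derivative of a `2 × 2` minor -/
theorem minor_deriv {f g : ℝ → ℝ} (hf : ContDiff ℝ ∞ f) (hg : ContDiff ℝ ∞ g) (t : ℝ) :
    HasDerivAt (fun t => f t * deriv g t - g t * deriv f t)
      (f t * deriv (deriv g) t - g t * deriv (deriv f) t) t := by
  have f1 := diff_of hf t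
  have g1 := diff_of hg t
  have f2 := diff_of (smooth_deriv hf) t
  have g2 := diff_of (smooth_deriv hg) t
  exact HasDerivAt.congr_deriv ((f1.mul g2).sub (g1.mul f2)) (by ring)

theorem minor_deriv2 {f g : ℝ → ℝ} (hf : ContDiff ℝ ∞ f) (hg : ContDiff ℝ ∞ g) (t : ℝ) :
    HasDerivAt (fun t => f t * deriv (deriv g) t - g t * deriv (deriv f) t)
      (deriv f t * deriv (deriv g) t - deriv g t * deriv (deriv f) t +
        (f t * deriv (deriv (deriv g)) t - g t * deriv (deriv (deriv f)) t)) t := by
  have f1 := diff_of hf t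
  have g1 := diff_of hg t
  have f3 := diff_of (smooth_deriv (smooth_deriv hf)) t
  have g3 := diff_of (smooth_deriv (smooth_deriv hg)) t
  exact HasDerivAt.congr_deriv ((f1.mul g3).sub (g1.mul f3)) (by ring)

theorem minor_deriv3 {f g : ℝ → ℝ} (hf : ContDiff ℝ ∞ f) (hg : ContDiff ℝ ∞ g) (t : ℝ) :
    HasDerivAt (fun t => deriv f t * deriv (deriv g) t - deriv g t * deriv (deriv f) t +
        (f t * deriv (deriv (deriv g)) t - g t * deriv (deriv (deriv f)) t))
      (2 * (deriv f t * deriv (deriv (deriv g)) t - deriv g t * deriv (deriv (deriv f)) t) +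
        (f t * deriv (deriv (deriv (deriv g))) t - g t * deriv (deriv (deriv (deriv f))) t)) t := by
  have f1 := diff_of hf t
  have g1 := diff_of hg t
  have f2 := diff_of (smooth_deriv hf) t
  have g2 := diff_of (smooth_deriv hg) t
  have f3 := diff_of (smooth_deriv (smooth_deriv hf)) t
  have g3 := diff_of (smooth_deriv (smooth_deriv hg)) t
  have f4 := diff_of (smooth_deriv (smooth_deriv (smooth_deriv hf))) t
  have g4 := diff_of (smooth_deriv (smooth_deriv (smooth_deriv hg))) t
  exact HasDerivAt.congr_deriv (((f2.mul g3).sub (g2.mul f3)).add ((f1.mul g4).sub (g1.mul f4)))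
    (by ring)

theorem D3_hasDeriv {a b c : ℝ → ℝ} (ha : ContDiff ℝ ∞ a) (hb : ContDiff ℝ ∞ b)
    (hc : ContDiff ℝ ∞ c) (t : ℝ) :
    HasDerivAt (D3 a b c)
      (a t * (deriv b t * deriv (deriv (deriv c)) t - deriv (deriv (deriv b)) t * deriv c t) -
        b t * (deriv a t * deriv (deriv (deriv c)) t - deriv (deriv (deriv a)) t * deriv c t) +
        c t * (deriv a t * deriv (deriv (deriv b)) t - deriv (deriv (deriv a)) t * deriv b t)) t := by
  have a1 := diff_of ha t
  have b1 := diff_of hb t
  have c1 := diff_of hc t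
  have a2 := diff_of (smooth_deriv ha) t
  have b2 := diff_of (smooth_deriv hb) t
  have c2 := diff_of (smooth_deriv hc) t
  have a3 := diff_of (smooth_deriv (smooth_deriv ha)) t
  have b3 := diff_of (smooth_deriv (smooth_deriv hb)) t
  have c3 := diff_of (smooth_deriv (smooth_deriv hc)) t
  exact HasDerivAt.congr_deriv (((a1.mul ((b2.mul c3).sub (b3.mul c2))).sub
    (b1.mul ((a2.mul c3).sub (a3.mul c2)))).add (c1.mul ((a2.mul b3).sub (a3.mul b2)))) (by
      simp only [Pi.mul_apply, Pi.sub_apply]
      ring)

/-- semicubical points of the envelope -/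
theorem semi_det {a b c : ℝ → ℝ} (ha : ContDiff ℝ ∞ a) (hb : ContDiff ℝ ∞ b)
    (hc : ContDiff ℝ ∞ c) (t : ℝ) (h0 : D3 a b c t = 0) (h1 : deriv (D3 a b c) t ≠ 0)
    {E : ℝ → Fin 3 → ℝ} (hE : E = fun t => ![b t * deriv c t - c t * deriv b t,
      c t * deriv a t - a t * deriv c t, a t * deriv b t - b t * deriv a t]) :
    LinearIndependent ℝ ![E t, deriv (deriv E) t, deriv (deriv (deriv E)) t] := by
  have E1 : deriv E = fun t => ![b t * deriv (deriv c) t - c t * deriv (deriv b) t,
      c t * deriv (deriv a) t - a t * deriv (deriv c) t,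
      a t * deriv (deriv b) t - b t * deriv (deriv a) t] := by
    funext s
    rw [hE]
    exact (vec_hasDerivAt (minor_deriv hb hc s) (minor_deriv hc ha s) (minor_deriv ha hb s)).deriv
  have E2 : deriv (deriv E) = fun t => ![deriv b t * deriv (deriv c) t - deriv c t * deriv (deriv b) t +
        (b t * deriv (deriv (deriv c)) t - c t * deriv (deriv (deriv b)) t),
      deriv c t * deriv (deriv a) t - deriv a t * deriv (deriv c) t +
        (c t * deriv (deriv (deriv a)) t - a t * deriv (deriv (deriv c)) t),
      deriv a t * deriv (deriv b) t - deriv b t * deriv (deriv a) t +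
        (a t * deriv (deriv (deriv b)) t - b t * deriv (deriv (deriv a)) t)] := by
    funext s
    rw [E1]
    exact (vec_hasDerivAt (minor_deriv2 hb hc s) (minor_deriv2 hc ha s)
      (minor_deriv2 ha hb s)).deriv
  have E3 : deriv (deriv (deriv E)) t =
      ![2 * (deriv b t * deriv (deriv (deriv c)) t - deriv c t * deriv (deriv (deriv b)) t) +
        (b t * deriv (deriv (deriv (deriv c))) t - c t * deriv (deriv (deriv (deriv b))) t),
      2 * (deriv c t * deriv (deriv (deriv a)) t - deriv a t * deriv (deriv (deriv c)) t) +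
        (c t * deriv (deriv (deriv (deriv a))) t - a t * deriv (deriv (deriv (deriv c))) t),
      2 * (deriv a t * deriv (deriv (deriv b)) t - deriv b t * deriv (deriv (deriv a)) t) +
        (a t * deriv (deriv (deriv (deriv b))) t - b t * deriv (deriv (deriv (deriv a))) t)] := by
    rw [E2]
    exact (vec_hasDerivAt (minor_deriv3 hb hc t) (minor_deriv3 hc ha t)
      (minor_deriv3 ha hb t)).deriv
  rw [(D3_hasDeriv ha hb hc t).deriv] at h1
  have hdet : (Matrix.of ![E t, deriv (deriv E) t, deriv (deriv (deriv E)) t]).det ≠ 0 := by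
    have e : (Matrix.of ![E t, deriv (deriv E) t, deriv (deriv (deriv E)) t]).det =
        2 * (a t * (deriv b t * deriv (deriv (deriv c)) t - deriv (deriv (deriv b)) t * deriv c t) -
        b t * (deriv a t * deriv (deriv (deriv c)) t - deriv (deriv (deriv a)) t * deriv c t) +
        c t * (deriv a t * deriv (deriv (deriv b)) t - deriv (deriv (deriv a)) t * deriv b t)) ^ 2 -
        D3 a b c t * (a t * (deriv b t * deriv (deriv (deriv (deriv c))) t -
          deriv (deriv (deriv (deriv b))) t * deriv c t) -
        b t * (deriv a t * deriv (deriv (deriv (deriv c))) t -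
          deriv (deriv (deriv (deriv a))) t * deriv c t) +
        c t * (deriv a t * deriv (deriv (deriv (deriv b))) t -
          deriv (deriv (deriv (deriv a))) t * deriv b t)) := by
      rw [E3, E2, hE, Matrix.det_fin_three]
      simp only [Matrix.of_apply, Matrix.cons_val_zero, Matrix.cons_val_one, Matrix.cons_val]
      unfold D3
      ring
    rw [e, h0, zero_mul, sub_zero]
    exact mul_ne_zero two_ne_zero (pow_ne_zero 2 h1)
  exact Matrix.linearIndependent_rows_of_det_ne_zero hdet

end Pool.Agent.Helper19.Caustic
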