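import Pool.Agent.Helper19.Caustic.Jets

set_option autoImplicit false

namespace Pool.Agent.Helper19.Caustic

theorem D3_frame {x1 x2 n1 n2 C S s : ℝ → ℝ} (hx1 : ContDiff ℝ 2 x1) (hx2 : ContDiff ℝ 2 x2)
    (hn1 : ContDiff ℝ 2 n1) (hn2 : ContDiff ℝ 2 n2) (hC : ContDiff ℝ 2 C) (hS : ContDiff ℝ 2 S)
    (hs : Differentiable ℝ s)
    (e1 : ∀ t, deriv x1 t = -(s t * n2 t)) (e2 : ∀ t, deriv x2 t = s t * n1 t) (t : ℝ) :
    D3 (fun t => -(C t * n2 t + S t * n1 t)) (fun t => C t * n1 t - S t * n2 t)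
      (fun t => (C t * n2 t + S t * n1 t) * x1 t - (C t * n1 t - S t * n2 t) * x2 t) t =
    (s t * C t * (n1 t ^ 2 + n2 t ^ 2) * ((n1 t ^ 2 + n2 t ^ 2) *
        (C t * deriv (deriv S) t - S t * deriv (deriv C) t) +
        2 * ((C t * deriv C t + S t * deriv S t) * (n1 t * deriv n2 t - n2 t * deriv n1 t) +
        (C t * deriv S t - S t * deriv C t) * (n1 t * deriv n1 t + n2 t * deriv n2 t)) +
        (C t ^ 2 + S t ^ 2) * (n1 t * deriv (deriv n2) t - n2 t * deriv (deriv n1) t)) -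
      (2 * (s t * (deriv C t * (n1 t ^ 2 + n2 t ^ 2) +
        C t * (n1 t * deriv n1 t + n2 t * deriv n2 t) -
        S t * (n1 t * deriv n2 t - n2 t * deriv n1 t))) +
        (deriv s t * C t * (n1 t ^ 2 + n2 t ^ 2) +
          s t * (C t * (n1 t * deriv n1 t + n2 t * deriv n2 t) +
            S t * (n1 t * deriv n2 t - n2 t * deriv n1 t)))) *
        ((n1 t ^ 2 + n2 t ^ 2) * (C t * deriv S t - S t * deriv C t) +
          (n1 t * deriv n2 t - n2 t * deriv n1 t) * (C t ^ 2 + S t ^ 2))) := by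
  have E1 : deriv x1 = fun t => -(s t * n2 t) := funext e1
  have E2 : deriv x2 = fun t => s t * n1 t := funext e2
  have F1 : deriv (deriv x1) t = -(deriv s t * n2 t + s t * deriv n2 t) := by
    rw [E1]
    have := ((hs t).hasDerivAt.mul (cd_diff hn2 t).hasDerivAt).neg
    exact this.deriv
  have F2 : deriv (deriv x2) t = deriv s t * n1 t + s t * deriv n1 t := by
    rw [E2]
    have := ((hs t).hasDerivAt.mul (cd_diff hn1 t).hasDerivAt)
    exact this.deriv
  rw [D3_line hx1 hx2 ((hC.mul hn1).sub (hS.mul hn2)) ((hC.mul hn2).add (hS.mul hn1)),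
    dd_add (hC.mul hn2) (hS.mul hn1), dd_sub (hC.mul hn1) (hS.mul hn2),
    dd_mul hC hn2, dd_mul hS hn1, dd_mul hC hn1, dd_mul hS hn2,
    d_add (hC.mul hn2) (hS.mul hn1), d_sub (hC.mul hn1) (hS.mul hn2),
    d_mul hC hn2, d_mul hS hn1, d_mul hC hn1, d_mul hS hn2, F1, F2, e1 t, e2 t]
  ring

/-- the change of the determinant at a reflection -/
theorem reflect_step (p q r : ℝ) (hd : 0 < p * r - q ^ 2) {x1 x2 u1 u2 : ℝ → ℝ}
    (hx1 : ContDiff ℝ 2 x1) (hx2 : ContDiff ℝ 2 x2)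
    (hu1 : ContDiff ℝ 2 u1) (hu2 : ContDiff ℝ 2 u2)
    (hγ : ∀ t, p * x1 t ^ 2 + 2 * q * x1 t * x2 t + r * x2 t ^ 2 = 1)
    (hu : ∀ t, u1 t ^ 2 + u2 t ^ 2 = 1)
    (n1 n2 J v1 v2 : ℝ → ℝ) (en1 : n1 = fun t => p * x1 t + q * x2 t)
    (en2 : n2 = fun t => q * x1 t + r * x2 t)
    (eJ : J = fun t => u1 t * n1 t + u2 t * n2 t)
    (ev1 : v1 = fun t => u1 t - 2 * J t / (n1 t ^ 2 + n2 t ^ 2) * n1 t)
    (ev2 : v2 = fun t => u2 t - 2 * J t / (n1 t ^ 2 + n2 t ^ 2) * n2 t) (t : ℝ) :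
    D3 (fun t => -v2 t) v1 (fun t => v2 t * x1 t - v1 t * x2 t) t =
      D3 (fun t => -u2 t) u1 (fun t => u2 t * x1 t - u1 t * x2 t) t +
      6 * (p * r - q ^ 2) * (deriv x1 t ^ 2 + deriv x2 t ^ 2) / (n1 t ^ 2 + n2 t ^ 2) ^ 2 *
        deriv J t := by
  have hn1 : ContDiff ℝ 2 n1 := by
    rw [en1]; exact (contDiff_const.mul hx1).add (contDiff_const.mul hx2)
  have hn2 : ContDiff ℝ 2 n2 := by
    rw [en2]; exact (contDiff_const.mul hx1).add (contDiff_const.mul hx2)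
  have hJ : ContDiff ℝ 2 J := by
    rw [eJ]; exact (hu1.mul hn1).add (hu2.mul hn2)
  have hν : ∀ t, 0 < n1 t ^ 2 + n2 t ^ 2 := by
    intro t
    rcases (add_nonneg (sq_nonneg (n1 t)) (sq_nonneg (n2 t))).lt_or_eq with h | h
    · exact h
    · exfalso
      have h1 : n1 t = 0 := by nlinarith [sq_nonneg (n1 t), sq_nonneg (n2 t)]
      have h2 : n2 t = 0 := by nlinarith [sq_nonneg (n1 t), sq_nonneg (n2 t)]
      have : x1 t * n1 t + x2 t * n2 t = 1 := by
        rw [en1, en2]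
        have := hγ t
        simp only
        linarith
      rw [h1, h2] at this
      norm_num at this
  obtain ⟨ν, eν⟩ : ∃ ν : ℝ → ℝ, ν = fun t => n1 t ^ 2 + n2 t ^ 2 := ⟨_, rfl⟩
  have hνc : ContDiff ℝ 2 ν := by rw [eν]; exact (hn1.pow 2).add (hn2.pow 2)
  have hν0 : ∀ t, ν t ≠ 0 := fun t => by rw [eν]; exact (hν t).ne'
  have hv1 : ContDiff ℝ 2 v1 := by
    rw [ev1]
    exact hu1.sub (((contDiff_const.mul hJ).div ((hn1.pow 2).add (hn2.pow 2))
      (fun t => (hν t).ne')).mul hn1)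
  have hv2 : ContDiff ℝ 2 v2 := by
    rw [ev2]
    exact hu2.sub (((contDiff_const.mul hJ).div ((hn1.pow 2).add (hn2.pow 2))
      (fun t => (hν t).ne')).mul hn2)
  -- the sine
  obtain ⟨S, eS⟩ : ∃ S : ℝ → ℝ, S = fun t => n1 t * u2 t - n2 t * u1 t := ⟨_, rfl⟩
  have hS : ContDiff ℝ 2 S := by rw [eS]; exact (hn1.mul hu2).sub (hn2.mul hu1)
  -- the speed
  obtain ⟨s, es⟩ : ∃ s : ℝ → ℝ, s = fun t => (n1 t * deriv x2 t - n2 t * deriv x1 t) / ν t :=
    ⟨_, rfl⟩
  have hs : Differentiable ℝ s := by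
    rw [es]
    intro t
    exact (((cd_diff hn1 t).mul (cd_deriv hx2 t)).sub ((cd_diff hn2 t).mul (cd_deriv hx1 t))).div
      (cd_diff hνc t) (hν0 t)
  have horth : ∀ t, n1 t * deriv x1 t + n2 t * deriv x2 t = 0 := by
    intro t
    have h1 : (fun t => p * (x1 t * x1 t) + 2 * q * (x1 t * x2 t) + r * (x2 t * x2 t)) =
        fun _ => (1 : ℝ) := by
      funext t
      have := hγ t
      linarith
    have a1 := cd_diff hx1 t
    have a2 := cd_diff hx2 t
    have h2 : HasDerivAt (fun t => p * (x1 t * x1 t) + 2 * q * (x1 t * x2 t) + r * (x2 t * x2 t))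
        (p * (deriv x1 t * x1 t + x1 t * deriv x1 t) +
          2 * q * (deriv x1 t * x2 t + x1 t * deriv x2 t) +
          r * (deriv x2 t * x2 t + x2 t * deriv x2 t)) t :=
      (((a1.hasDerivAt.mul a1.hasDerivAt).const_mul p).add
        ((a1.hasDerivAt.mul a2.hasDerivAt).const_mul (2 * q))).add
        ((a2.hasDerivAt.mul a2.hasDerivAt).const_mul r)
    rw [h1] at h2
    have h3 := h2.unique (hasDerivAt_const t (1 : ℝ))
    rw [en1, en2]
    simp only
    linarith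
  have e1 : ∀ t, deriv x1 t = -(s t * n2 t) := by
    intro t
    have := horth t
    have h0 := hν0 t
    rw [es]
    simp only
    rw [div_mul_eq_mul_div, eq_neg_iff_add_eq_zero, ← mul_right_inj' h0]
    rw [mul_add, mul_div_cancel₀ _ h0, mul_zero]
    rw [eν]
    simp only
    linear_combination (n1 t) * this
  have e2 : ∀ t, deriv x2 t = s t * n1 t := by
    intro t
    have := horth t
    have h0 := hν0 t
    rw [es]
    simp only
    rw [div_mul_eq_mul_div, eq_div_iff h0]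
    rw [eν]
    simp only
    linear_combination (n2 t) * this
  -- the two scaled families
  have sc1 : (fun t => ν t * -u2 t) = fun t => -(J t * n2 t + S t * n1 t) := by
    funext t; rw [eν, eJ, eS]; ring
  have sc2 : (fun t => ν t * u1 t) = fun t => J t * n1 t - S t * n2 t := by
    funext t; rw [eν, eJ, eS]; ring
  have sc3 : (fun t => ν t * (u2 t * x1 t - u1 t * x2 t)) = fun t =>
      (J t * n2 t + S t * n1 t) * x1 t - (J t * n1 t - S t * n2 t) * x2 t := by
    funext t; rw [eν, eJ, eS]; ring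
  have sd1 : (fun t => ν t * -v2 t) = fun t => -((-J t) * n2 t + S t * n1 t) := by
    funext t
    have h0 := hν0 t
    rw [ev2]
    rw [eν] at h0 ⊢
    simp only at h0 ⊢
    field_simp
    rw [eJ, eS]
    simp only
    ring
  have sd2 : (fun t => ν t * v1 t) = fun t => (-J t) * n1 t - S t * n2 t := by
    funext t
    have h0 := hν0 t
    rw [ev1]
    rw [eν] at h0 ⊢
    simp only at h0 ⊢
    field_simp
    rw [eJ, eS]
    simp only
    ring
  have sd3 : (fun t => ν t * (v2 t * x1 t - v1 t * x2 t)) = fun t =>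
      ((-J t) * n2 t + S t * n1 t) * x1 t - ((-J t) * n1 t - S t * n2 t) * x2 t := by
    funext t
    have k1 : ν t * -v2 t = -((-J t) * n2 t + S t * n1 t) := congrFun sd1 t
    have k2 : ν t * v1 t = (-J t) * n1 t - S t * n2 t := congrFun sd2 t
    linear_combination (-x1 t) * k1 - (x2 t) * k2
  have A1 := D3_smul hνc hu2.neg hu1 ((hu2.mul hx1).sub (hu1.mul hx2)) t
  have A2 := D3_smul hνc hv2.neg hv1 ((hv2.mul hx1).sub (hv1.mul hx2)) t
  rw [sc1, sc2, sc3, D3_frame hx1 hx2 hn1 hn2 hJ hS hs e1 e2] at A1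
  rw [sd1, sd2, sd3, D3_frame hx1 hx2 hn1 hn2 hJ.neg hS hs e1 e2] at A2
  rw [dd_neg, d_neg] at A2
  simp only at A2
  -- relations
  have r0 : J t ^ 2 + S t ^ 2 = n1 t ^ 2 + n2 t ^ 2 := by
    rw [eJ, eS]
    have := hu t
    simp only
    linear_combination (n1 t ^ 2 + n2 t ^ 2) * this
  have r1 : J t * deriv J t + S t * deriv S t = n1 t * deriv n1 t + n2 t * deriv n2 t := by
    have h1 : (fun t => J t * J t + S t * S t) = fun t => n1 t * n1 t + n2 t * n2 t := by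
      funext t
      rw [eJ, eS]
      have := hu t
      simp only
      linear_combination (n1 t ^ 2 + n2 t ^ 2) * this
    have h2 := congrFun (congrArg deriv h1) t
    rw [d_add (hJ.mul hJ) (hS.mul hS), d_add (hn1.mul hn1) (hn2.mul hn2), d_mul hJ hJ,
      d_mul hS hS, d_mul hn1 hn1, d_mul hn2 hn2] at h2
    simp only at h2
    linarith
  have dn1 : deriv n1 = fun t => p * deriv x1 t + q * deriv x2 t := by
    rw [en1, d_add (contDiff_const.mul hx1) (contDiff_const.mul hx2), d_const_mul p hx1,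
      d_const_mul q hx2]
  have dn2 : deriv n2 = fun t => q * deriv x1 t + r * deriv x2 t := by
    rw [en2, d_add (contDiff_const.mul hx1) (contDiff_const.mul hx2), d_const_mul q hx1,
      d_const_mul r hx2]
  have hb : (fun t => n1 t * deriv n2 t - n2 t * deriv n1 t) = fun t => s t * (p * r - q ^ 2) := by
    funext t
    rw [dn1, dn2]
    simp only [e1, e2]
    have h := hγ t
    have k1 : n1 t = p * x1 t + q * x2 t := by rw [en1]
    have k2 : n2 t = q * x1 t + r * x2 t := by rw [en2]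
    rw [k1, k2]
    linear_combination (s t * (p * r - q ^ 2)) * h
  have hb1 : n1 t * deriv n2 t - n2 t * deriv n1 t = s t * (p * r - q ^ 2) := congrFun hb t
  have hb2 : n1 t * deriv (deriv n2) t - n2 t * deriv (deriv n1) t =
      deriv s t * (p * r - q ^ 2) := by
    have h1 : HasDerivAt (fun t => n1 t * deriv n2 t - n2 t * deriv n1 t)
        (deriv n1 t * deriv n2 t + n1 t * deriv (deriv n2) t -
          (deriv n2 t * deriv n1 t + n2 t * deriv (deriv n1) t)) t :=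
      ((cd_diff hn1 t).hasDerivAt.mul (cd_deriv hn2 t).hasDerivAt).sub
        ((cd_diff hn2 t).hasDerivAt.mul (cd_deriv hn1 t).hasDerivAt)
    rw [hb] at h1
    have h2 := h1.unique ((hs t).hasDerivAt.mul_const (p * r - q ^ 2))
    linarith
  have key := core_alg (s t) (deriv s t) (J t) (deriv J t) (deriv (deriv J) t) (S t)
    (deriv S t) (deriv (deriv S) t) (n1 t ^ 2 + n2 t ^ 2)
    (n1 t * deriv n1 t + n2 t * deriv n2 t) (n1 t * deriv n2 t - n2 t * deriv n1 t)
    (n1 t * deriv (deriv n2) t - n2 t * deriv (deriv n1) t) (p * r - q ^ 2) r0 r1 hb1 hb2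
  have key2 : ν t ^ 3 * D3 (fun t => -v2 t) v1 (fun t => v2 t * x1 t - v1 t * x2 t) t -
      ν t ^ 3 * D3 (fun t => -u2 t) u1 (fun t => u2 t * x1 t - u1 t * x2 t) t =
      6 * (p * r - q ^ 2) * s t ^ 2 * deriv J t * (n1 t ^ 2 + n2 t ^ 2) ^ 2 := by
    rw [← A1, ← A2]
    exact key
  have hνt : ν t = n1 t ^ 2 + n2 t ^ 2 := by rw [eν]
  have h0 : n1 t ^ 2 + n2 t ^ 2 ≠ 0 := (hν t).ne'
  rw [e1 t, e2 t]
  rw [hνt] at key2
  have h3 : (n1 t ^ 2 + n2 t ^ 2) ^ 3 ≠ 0 := pow_ne_zero 3 h0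
  apply mul_left_cancel₀ h3
  rw [mul_add]
  have h4 : (n1 t ^ 2 + n2 t ^ 2) ^ 3 * (6 * (p * r - q ^ 2) *
      ((-(s t * n2 t)) ^ 2 + (s t * n1 t) ^ 2) / (n1 t ^ 2 + n2 t ^ 2) ^ 2 * deriv J t) =
      6 * (p * r - q ^ 2) * s t ^ 2 * deriv J t * (n1 t ^ 2 + n2 t ^ 2) ^ 2 := by
    field_simp
    ring
  rw [h4]
  linarith

end Pool.Agent.Helper19.Caustic
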